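import Pool.Agent.Lib.MP_7d48f8_nt.C.Cells
import Pool.Agent.Lib.MP_7d48f8_nt.C.DefsEq
import Pool.Agent.Lib.MP_7d48f8_nt.C.RDefsEq

/-! Pairs of cells on the boundary of the admissible region. -/

noncomputable section

namespace Pool.Agent.Lib.MP_7d48f8_nt

open Finset MeasureTheory Filter Topology

theorem EVo_skip (u : ℝ) (t : ℕ → ℝ) (T : Tt (List ℕ)) (n j k : ℕ) (S : Finset ℕ) :
    EVo u t (skip n T) j k S = EVo u t T (j + n) (if n = 0 then k else 0) S := by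
  induction n generalizing j k with
  | zero => simp [skip]
  | succ n ih =>
    rw [skip, EVo, ih, ite_self, if_neg n.succ_ne_zero, show j + 1 + n = j + (n + 1) by omega]
    simp [pv, EVo]

theorem bnd_one (u : ℝ) (t : ℕ → ℝ) (c j k : ℕ) (S : Finset ℕ) :
    EVo u t (.nd [c] .nil .nil) j k S = (∑ p ∈ S, ((B0 : ℝ) - c) * ind j (t p)) / (k + 1) := by
  simp [EVo, pv, mul_comm]

theorem bnd_skip (u : ℝ) (t : ℕ → ℝ) (T : Tt (List ℕ)) {j : ℕ} (hj : 2 ≤ j) (S : Finset ℕ) :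
    EVo u t (skip (j - 2) T) 2 0 S = EVo u t T j 0 S := by
  rw [EVo_skip, ite_self, show 2 + (j - 2) = j by omega]

theorem CF_one (j c : ℕ) (hj : 2 ≤ j) (S : Finset ℕ) (t : ℕ → ℝ) :
    CF ⟨0, [], skip (j - 2) (.nd [c] .nil .nil)⟩ S t = ∑ p ∈ S, ((B0 : ℝ) - c) * ind j (t p) := by
  simp [CF, pv, bnd_skip _ _ _ hj, bnd_one]

theorem CF_del (j c : ℕ) (hj : 2 ≤ j) (S : Finset ℕ) (t : ℕ → ℝ) :
    CF ⟨j, [c], .nil⟩ S t = ∑ p ∈ S, ((B0 : ℝ) - c) * del j (t p) := by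
  simp [CF, pv, EVo, show j ≠ 0 by omega, mul_comm]

theorem bnd_two {i j : ℕ} (c : ℕ) (hi : 2 ≤ i) (hj : 2 ≤ j) (S : Finset ℕ) (t : ℕ → ℝ) :
    CF ⟨i, [], skip (j - 2) (.nd [c] .nil .nil)⟩ S t =
      ∑ p ∈ S, ∑ q ∈ S.erase p, del i (t p) * (((B0 : ℝ) - c) * ind j (t q)) := by
  simp [CF, pv, bnd_skip _ _ _ hj, bnd_one, show i ≠ 0 by omega, mul_sum]

theorem bnd_swap (S : Finset ℕ) (f : ℕ → ℕ → ℝ) :
    ∑ p ∈ S, ∑ q ∈ S.erase p, f p q = ∑ p ∈ S, ∑ q ∈ S.erase p, f q p :=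
  sum_comm' fun p q => by
    simp only [mem_erase, ne_eq, eq_comm (a := q)]
    tauto

theorem bnd_t0 (b : Bd) (h1 : 2 ≤ b.j1) (h2 : b.j1 ≤ b.j2) (S : Finset ℕ) (t : ℕ → ℝ) :
    CF b.t0 S t = (∑ p ∈ S, ∑ q ∈ S.erase p,
      ind b.j1 (t p) * (((B0 : ℝ) - b.c0) * ind b.j2 (t q))) / (if b.j1 = b.j2 then 2 else 1) := by
  have e : ∀ (u : ℝ) (S : Finset ℕ),
      EVo u t (skip (b.j2 - b.j1) (.nd [b.c0] .nil .nil)) b.j1 1 S =
        (∑ q ∈ S, ((B0 : ℝ) - b.c0) * ind b.j2 (t q)) / (if b.j1 = b.j2 then 2 else 1) := by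
    intro u S
    rw [EVo_skip, bnd_one, show b.j1 + (b.j2 - b.j1) = b.j2 by omega]
    by_cases h : b.j1 = b.j2
    · rw [if_pos h, if_pos (by omega)]
      norm_num
    · rw [if_neg h, if_neg (by omega)]
      norm_num
  rw [CF, if_pos (show b.t0.k = 0 from rfl), Bd.t0]
  simp only [bnd_skip _ _ _ h1, EVo, pv, zero_add, e, Nat.cast_zero, div_one, add_zero, sum_div,
    mul_sum, mul_div_assoc]

/-- Write the second term as a multiple of `UL [del j2, ind j1]` and use `UL_perm`. -/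
theorem CL_terms (b : Bd) (h1 : 2 ≤ b.j1) (h2 : b.j1 ≤ b.j2) (S : Finset ℕ) (t : ℕ → ℝ) :
    CL b.terms S t = ∑ p ∈ S, ∑ q ∈ S.erase p, ind b.j1 (t p) * ind b.j2 (t q) *
      (b.y0 + b.y1 * (44 * t p - b.j1) + b.y2 * (44 * t q - b.j2)) := by
  have e : CL b.terms S t =
      ∑ p ∈ S, ∑ q ∈ S.erase p, del b.j1 (t p) * (((B0 : ℝ) - b.c1) * ind b.j2 (t q)) +
        (∑ p ∈ S, ∑ q ∈ S.erase p, del b.j2 (t q) * (((B0 : ℝ) - b.c2) * ind b.j1 (t p)) +
          ∑ p ∈ S, ∑ q ∈ S.erase p, ind b.j1 (t p) * (((B0 : ℝ) - b.c0) * ind b.j2 (t q))) := by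
    rw [bnd_swap S fun p q => del b.j2 (t q) * (((B0 : ℝ) - b.c2) * ind b.j1 (t p)),
      ← bnd_two b.c1 h1 (h1.trans h2), ← bnd_two b.c2 (h1.trans h2) h1]
    have e0 := bnd_t0 b h1 h2 S t
    rw [CL, Bd.terms]
    by_cases h : b.j1 = b.j2
    · rw [if_pos h] at e0 ⊢
      simp only [List.map_cons, List.map_nil, List.sum_cons, List.sum_nil, e0]
      ring
    · rw [if_neg h] at e0 ⊢
      simp only [List.map_cons, List.map_nil, List.sum_cons, List.sum_nil, e0]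
      ring
  rw [e, ← sum_add_distrib, ← sum_add_distrib]
  refine sum_congr rfl fun p _ => ?_
  rw [← sum_add_distrib, ← sum_add_distrib]
  refine sum_congr rfl fun q _ => ?_
  simp only [del, Bd.y0, Bd.y1, Bd.y2]
  push_cast
  ring

theorem bnd_pair {c d : Cell} (hc : c.ok) (hd : d.ok) (h : 3 * d.s + 4 * c.s ≤ 2) :
    Nice (fun S t => ∑ p ∈ S, ∑ q ∈ S.erase p, c.ph (t p) * d.ph (t q)) (c.ms * d.ms) := by
  have h1 := nice_perm [c, d] [d] [c] (List.Perm.swap _ _ _) (by simp [hc, hd])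
    (by simpa using hd.2.2.1) (by simpa using h)
  have e : UL ([c, d].map Cell.ph) =
      fun S t => ∑ p ∈ S, ∑ q ∈ S.erase p, c.ph (t p) * d.ph (t q) := by
    funext S t
    simp [UL, mul_sum]
  rw [e] at h1
  simpa using h1

/-- One strip: three applications of `nice_perm` with `La` the cell in the second place. -/
theorem nice_strip (y0 y1 y2 j1 j2 : ℝ) {x1 z1 x2 z2 : ℝ} (h1 : 0 < x1) (h2 : x1 < z1) (h3 : z1 ≤ 22)
    (h4 : 0 < x2) (h5 : x2 < z2) (h6 : z2 ≤ 22) (h7 : 3 * z2 + 4 * z1 ≤ 88) :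
    Nice (fun S t => ∑ p ∈ S, ∑ q ∈ S.erase p, (sc x1 z1).ph (t p) * (sc x2 z2).ph (t q) *
        (y0 + y1 * (44 * t p - j1) + y2 * (44 * t q - j2)))
      ((y0 - j1 * y1 - j2 * y2) * (Real.log (z1 / x1) * Real.log (z2 / x2)) +
        y2 * (z2 - x2) * Real.log (z1 / x1) + y1 * (z1 - x1) * Real.log (z2 / x2)) := by
  have h8 : 3 * (z2 / 44) + 4 * (z1 / 44) ≤ 2 := by linarith
  have h9 := (((bnd_pair (sc_ok h1 h2 h3) (sc_ok h4 h5 h6) h8).smul y0).add
    ((bnd_pair (sm_ok j1 h1 h2 h3) (sc_ok h4 h5 h6) h8).smul y1)).add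
    ((bnd_pair (sc_ok h1 h2 h3) (sm_ok j2 h4 h5 h6) h8).smul y2)
  rw [sc_ms h1 h2, sc_ms h4 h5, sm_ms j1 h1 h2, sm_ms j2 h4 h5] at h9
  refine Eq.mp ?_ h9
  congr 1
  · funext S t
    simp only [mul_sum, ← sum_add_distrib, sm_ph j1 h1, sm_ph j2 h4]
    exact sum_congr rfl fun p _ => sum_congr rfl fun q _ => by ring
  · ring

theorem bnd_range {M : Type} [AddCommMonoid M] (f : ℕ → M) (n : ℕ) :
    ((List.range n).map f).sum = ∑ i ∈ range n, f i := by
  induction n with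
  | zero => simp
  | succ n ih => rw [List.range_succ, List.map_append, List.sum_append, ih, sum_range_succ]; simp

theorem bnd_part (j z : ℝ) (n : ℕ) :
    ∑ i ∈ range n, (if j + (i : ℝ) / 32 ≤ z ∧ z < j + ((i : ℝ) + 1) / 32 then (1 : ℝ) else 0) =
      if j ≤ z ∧ z < j + (n : ℝ) / 32 then 1 else 0 := by
  induction n with
  | zero => simp
  | succ n ih =>
    have hn : (0 : ℝ) ≤ n := Nat.cast_nonneg n
    rw [sum_range_succ, ih, Nat.cast_succ]
    rcases lt_or_ge z (j + (n : ℝ) / 32) with h | h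
    · have h' : z < j + ((n : ℝ) + 1) / 32 := by linarith
      simp [h, h', not_le.2 h]
    · have h' : j ≤ z := by linarith
      simp [h, h', not_lt.2 h]

theorem bnd_min (y a b : ℤ) {z : ℝ} (h1 : (a : ℝ) ≤ z) (h2 : z ≤ b) :
    ((min (y * a) (y * b) : ℤ) : ℝ) ≤ y * z := by
  push_cast
  rcases le_total 0 (y : ℝ) with h | h
  · exact (min_le_left _ _).trans (mul_le_mul_of_nonneg_left h1 h)
  · exact (min_le_right _ _).trans (mul_le_mul_of_nonpos_left h2 h)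

theorem bnd_log {x y : ℕ} {x' y' : ℝ} (hx : 0 < x) (hxy : x < y) (ex : (x : ℝ) = 32 * x')
    (ey : (y : ℝ) = 32 * y') :
    (lgLo x y : ℝ) ≤ 2 ^ 60 * Real.log (y' / x') ∧ 2 ^ 60 * Real.log (y' / x') ≤ lgHi x y := by
  have e : (y : ℝ) / x = y' / x' := by rw [ex, ey, mul_div_mul_left _ _ (by norm_num)]
  exact ⟨e ▸ lgLo_le hx hxy, e ▸ le_lgHi hx hxy⟩

theorem bnd_ms1 (b : Bd) (i : ℕ) {lo1 hi1 lo2 hi2 : ℕ} {l1 l2 : ℝ}
    (h1 : (lo1 : ℝ) ≤ 2 ^ 60 * l1 ∧ 2 ^ 60 * l1 ≤ hi1)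
    (h2 : (lo2 : ℝ) ≤ 2 ^ 60 * l2 ∧ 2 ^ 60 * l2 ≤ hi2) :
    (b.ms1 i lo1 hi1 lo2 hi2 : ℝ) / (32 * 2 ^ 120) ≤
      (b.y0 - b.j1 * b.y1 - b.j2 * b.y2) * (l1 * l2) + b.y2 * (1 / 32) * l1 +
        b.y1 * (b.cut i / 32) * l2 := by
  have p1 : (0 : ℝ) ≤ 2 ^ 60 * l1 := (Nat.cast_nonneg _).trans h1.1
  have p2 : (0 : ℝ) ≤ 2 ^ 60 * l2 := (Nat.cast_nonneg _).trans h2.1
  have a0 := mlo_le (b.y0 - b.j1 * b.y1 - b.j2 * b.y2) (lo := lo1 * lo2) (hi := hi1 * hi2)
    (z := 2 ^ 60 * l1 * (2 ^ 60 * l2))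
    (by rw [Nat.cast_mul]; exact mul_le_mul h1.1 h2.1 (Nat.cast_nonneg _) p1)
    (by rw [Nat.cast_mul]; exact mul_le_mul h1.2 h2.2 p2 (Nat.cast_nonneg _))
  have a1 := mlo_le b.y2 h1.1 h1.2
  have a2 := mul_le_mul_of_nonneg_left (mlo_le b.y1 h2.1 h2.2) (Nat.cast_nonneg (b.cut i))
  rw [div_le_iff₀ (by positivity), Bd.ms1]
  push_cast at a0 ⊢
  linarith

/-- `nice_list` over the strips `i < 32` with `cut i ≠ 0`: `x1 = j1`, `z1 = j1 + cut i / 32`,
`x2 = j2 + i / 32`, `z2 = j2 + (i + 1) / 32`.  For fixed `p`, `q` at most one strip contains `t q`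
(`i = ⌊32 * (44 * t q - j2)⌋₊`); if `t p` lies in the cell `j1` above the cut the affine function is
nonnegative by `ok`. -/
theorem dom_bd (b : Bd) (h : b.ok = true) : Dom (CL b.terms) ((b.ms : ℝ) / (32 * 2 ^ 120)) := by
  simp only [Bd.ok, Bool.and_eq_true, Nat.ble_eq, List.all_eq_true, List.mem_range,
    decide_eq_true_eq] at h
  obtain ⟨⟨⟨h1, h2⟩, h3⟩, h4⟩ := h
  have r1 : (2 : ℝ) ≤ b.j1 := by exact_mod_cast h1
  have r2 : (b.j1 : ℝ) ≤ b.j2 := by exact_mod_cast h2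
  have r3 : (b.j2 : ℝ) ≤ 21 := by exact_mod_cast h3
  have c1 : ∀ i, (b.cut i : ℝ) ≤ 32 := fun i => by exact_mod_cast min_le_left _ _
  have x2 : ∀ i : ℕ, (0 : ℝ) < b.j2 + (i : ℝ) / 32 := fun i => by
    have : (0 : ℝ) ≤ i := Nat.cast_nonneg i
    linarith
  have hN := nice_list (List.range 32)
    (fun i S t => if b.cut i = 0 then 0 else ∑ p ∈ S, ∑ q ∈ S.erase p,
      (sc b.j1 (b.j1 + b.cut i / 32)).ph (t p) * (sc (b.j2 + i / 32) (b.j2 + (i + 1) / 32)).ph (t q) *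
        (b.y0 + b.y1 * (44 * t p - b.j1) + b.y2 * (44 * t q - b.j2)))
    (fun i => if b.cut i = 0 then 0 else (b.y0 - b.j1 * b.y1 - b.j2 * b.y2) *
      (Real.log ((b.j1 + b.cut i / 32) / b.j1) *
        Real.log ((b.j2 + (i + 1) / 32) / (b.j2 + i / 32))) +
      b.y2 * (b.j2 + (i + 1) / 32 - (b.j2 + i / 32)) * Real.log ((b.j1 + b.cut i / 32) / b.j1) +
      b.y1 * (b.j1 + b.cut i / 32 - b.j1) * Real.log ((b.j2 + (i + 1) / 32) / (b.j2 + i / 32)))
    fun i hi => by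
      by_cases hc : b.cut i = 0
      · simpa only [if_pos hc] using nice_zero
      · have i1 : (i : ℝ) + 1 ≤ 32 := by exact_mod_cast List.mem_range.1 hi
        have c0 : (0 : ℝ) < b.cut i := by exact_mod_cast Nat.pos_of_ne_zero hc
        have c2 : 3 * (32 * b.j2 + i + 1) + 128 * b.j1 + 4 * b.cut i ≤ 2816 := by
          rw [Bd.cut] at hc ⊢
          omega
        have c3 : 3 * (32 * (b.j2 : ℝ) + i + 1) + 128 * b.j1 + 4 * b.cut i ≤ 2816 := by
          exact_mod_cast c2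
        simpa only [if_neg hc] using nice_strip b.y0 b.y1 b.y2 b.j1 b.j2 (x1 := b.j1)
          (z1 := b.j1 + b.cut i / 32) (x2 := b.j2 + i / 32) (z2 := b.j2 + (i + 1) / 32)
          (by linarith) (by linarith) (by linarith [c1 i]) (x2 i) (by linarith) (by linarith)
          (by linarith)
  refine hN.dom ?_ fun S t => ?_
  · rw [Bd.ms, bnd_range, bnd_range, Int.cast_sum, sum_div]
    refine sum_le_sum fun i _ => ?_
    by_cases hc : b.cut i = 0
    · simp [hc]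
    · rw [if_neg hc, if_neg hc]
      refine (bnd_ms1 b i
        (bnd_log (x' := b.j1) (y' := b.j1 + b.cut i / 32) (by omega) (by omega) (by push_cast; ring)
          (by push_cast; ring))
        (bnd_log (x' := b.j2 + i / 32) (y' := b.j2 + (i + 1) / 32) (by omega) (by omega)
          (by push_cast; ring) (by push_cast; ring))).trans (le_of_eq ?_)
      ring
  · rw [bnd_range, CL_terms b h1 h2]
    have e : ∀ z : ℝ, ind b.j2 z =
        ∑ i ∈ range 32, (sc (b.j2 + (i : ℝ) / 32) (b.j2 + ((i : ℝ) + 1) / 32)).ph z := fun z => by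
      simp only [sc_ph (x2 _)]
      rw [bnd_part, ind]
      norm_num
    simp only [e, mul_sum, sum_mul]
    rw [sum_congr rfl fun p _ => sum_comm, sum_comm]
    refine sum_le_sum fun i hi => ?_
    have key : ∀ p q, (sc b.j1 (b.j1 + b.cut i / 32)).ph (t p) *
        (sc (b.j2 + i / 32) (b.j2 + (i + 1) / 32)).ph (t q) *
          (b.y0 + b.y1 * (44 * t p - b.j1) + b.y2 * (44 * t q - b.j2)) ≤
        ind b.j1 (t p) * (sc (b.j2 + i / 32) (b.j2 + (i + 1) / 32)).ph (t q) *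
          (b.y0 + b.y1 * (44 * t p - b.j1) + b.y2 * (44 * t q - b.j2)) := fun p q => by
      rw [sc_ph (by linarith), sc_ph (x2 i), ind]
      by_cases hq : b.j2 + (i : ℝ) / 32 ≤ 44 * t q ∧ 44 * t q < b.j2 + ((i : ℝ) + 1) / 32
      swap
      · simp [hq]
      rw [if_pos hq]
      by_cases hp : (b.j1 : ℝ) ≤ 44 * t p ∧ 44 * t p < b.j1 + b.cut i / 32
      · rw [if_pos hp, if_pos ⟨hp.1, by linarith [hp.2, c1 i]⟩]
      rw [if_neg hp]
      split_ifs with hp'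
      swap
      · rfl
      have a1 : (b.j1 : ℝ) + b.cut i / 32 ≤ 44 * t p := not_lt.1 fun h => hp ⟨hp'.1, h⟩
      rcases h4 i (mem_range.1 hi) with h5 | h5
      · rw [h5] at a1
        push_cast at a1
        linarith [hp'.2]
      · have a2 := bnd_min b.y1 (b.cut i) 32 (z := 32 * (44 * t p - b.j1))
          (by push_cast; linarith) (by push_cast; linarith [hp'.2])
        have a3 := bnd_min b.y2 i (i + 1) (z := 32 * (44 * t q - b.j2))
          (by push_cast; linarith [hq.1]) (by push_cast; linarith [hq.2])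
        have a4 := (Int.cast_le (R := ℝ)).2 h5
        rw [Int.cast_add, Int.cast_add, Int.cast_mul, Int.cast_zero, Int.cast_ofNat] at a4
        linarith
    refine le_trans (le_of_eq ?_) (sum_le_sum fun p _ => sum_le_sum fun q _ => key p q)
    split_ifs with hc
    · refine (sum_eq_zero fun p _ => sum_eq_zero fun q _ => ?_).symm
      rw [sc_ph (by linarith), if_neg fun h => by
        rw [hc] at h
        push_cast at h
        linarith [h.1, h.2], zero_mul, zero_mul]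
    · rfl

theorem dom_bds (L : List Bd) (h : L.all Bd.ok = true) :
    Dom (CL (L.flatMap Bd.terms)) (((L.map Bd.ms).sum : ℤ) / (32 * 2 ^ 120)) := by
  induction L with
  | nil => exact nice_zero.dom (by simp) fun S t => by simp [CL]
  | cons b L ih =>
    rw [List.all_cons, Bool.and_eq_true] at h
    refine ((dom_bd b h.1).add (ih h.2)).mono (le_of_eq ?_) fun S t => le_of_eq ?_
    · rw [List.map_cons, List.sum_cons, Int.cast_add, add_div]
    · simp only [CL, List.flatMap_cons, List.map_append, List.sum_append]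

end Pool.Agent.Lib.MP_7d48f8_nt
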