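import Pool.Agent.Lib.MP_7d48f8_nt.C.RDefs

/-! The cells, logarithms, and closure properties. -/

noncomputable section

namespace Pool.Agent.Lib.MP_7d48f8_nt

open Finset MeasureTheory Filter Topology

theorem sc_ok {x y : ℝ} (hx : 0 < x) (hxy : x < y) (hy : y ≤ 22) : (sc x y).ok := by
  refine ⟨by simp only [sc]; positivity, by simp only [sc]; linarith, by simp only [sc]; linarith,
    continuousOn_const.div continuousOn_id fun t ht => ?_⟩
  exact ((div_pos hx (by norm_num)).trans_le ht.1).ne'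

theorem sm_ok (j : ℝ) {x y : ℝ} (hx : 0 < x) (hxy : x < y) (hy : y ≤ 22) : (sm j x y).ok := by
  refine ⟨by simp only [sm]; positivity, by simp only [sm]; linarith, by simp only [sm]; linarith,
    ContinuousOn.div (by fun_prop) continuousOn_id fun t ht => ?_⟩
  exact ((div_pos hx (by norm_num)).trans_le ht.1).ne'

theorem dc_ok (k : ℕ) : (dc k).ok := by
  refine ⟨le_rfl, by norm_num [dc], by norm_num [dc], ?_⟩
  simp only [dc]
  fun_prop

theorem sc_ph {x : ℝ} (hx : 0 < x) (y t : ℝ) :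
    (sc x y).ph t = if x ≤ 44 * t ∧ 44 * t < y then 1 else 0 := by
  simp only [Cell.ph, sc, div_le_iff₀' (show (0 : ℝ) < 44 by norm_num),
    lt_div_iff₀' (show (0 : ℝ) < 44 by norm_num)]
  split_ifs with h
  · exact mul_one_div_cancel (by linarith [h.1] : 0 < t).ne'
  · rfl

theorem sm_ph (j : ℝ) {x : ℝ} (hx : 0 < x) (y t : ℝ) :
    (sm j x y).ph t = (sc x y).ph t * (44 * t - j) := by
  simp only [Cell.ph, sc, sm]
  split_ifs with h
  · ring
  · rw [zero_mul]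

theorem dc_ph (k : ℕ) : (dc k).ph = dw k := by
  funext t
  simp only [Cell.ph, dc, dw, lt_div_iff₀' (show (0 : ℝ) < 44 by norm_num)]
  split_ifs with h
  · ring
  · rfl

theorem sc_ind {j : ℕ} (hj : 0 < j) : (sc j (j + 1)).ph = ind j := by
  funext t
  rw [sc_ph (Nat.cast_pos.2 hj), ind]

theorem sm_del {j : ℕ} (hj : 0 < j) : (sm j j (j + 1)).ph = del j := by
  funext t
  rw [sm_ph _ (Nat.cast_pos.2 hj), sc_ind hj, del]

theorem sc_ms {x y : ℝ} (hx : 0 < x) (hxy : x < y) : (sc x y).ms = Real.log (y / x) := by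
  have hy := hx.trans hxy
  simp only [Cell.ms, sc]
  rw [integral_one_div_of_pos (by positivity) (by positivity),
    div_div_div_cancel_right₀ (by norm_num)]

theorem sm_ms (j : ℝ) {x y : ℝ} (hx : 0 < x) (hxy : x < y) :
    (sm j x y).ms = y - x - j * Real.log (y / x) := by
  have hy := hx.trans hxy
  have h0 : (0 : ℝ) ∉ Set.uIcc (x / 44) (y / 44) :=
    Set.notMem_uIcc_of_lt (by positivity) (by positivity)
  have h1 : (sm j x y).ms = ∫ t in (x / 44)..(y / 44), (44 - j * (1 / t)) := by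
    refine intervalIntegral.integral_congr fun t ht => ?_
    have : t ≠ 0 := fun e => h0 (e ▸ ht)
    simp only [sm]
    field_simp
  rw [h1, intervalIntegral.integral_sub intervalIntegrable_const
    ((intervalIntegral.intervalIntegrable_one_div (f := fun t => t) (fun t ht e => h0 (e ▸ ht))
      continuousOn_id).const_mul j), intervalIntegral.integral_const_mul,
    integral_one_div_of_pos (by positivity) (by positivity),
    div_div_div_cancel_right₀ (by norm_num), intervalIntegral.integral_const, smul_eq_mul]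
  ring

theorem dc_ms (k : ℕ) : (dc k).ms = 2 ^ (k + 1) / (k + 1) := by
  simp only [Cell.ms, dc]
  rw [intervalIntegral.integral_const_mul, integral_pow, zero_pow k.succ_ne_zero, sub_zero,
    ← mul_div_assoc, ← mul_pow]
  norm_num

theorem cells_div (p q : ℕ) : (p : ℝ) / q ≤ (p / q : ℕ) + 1 := by
  rw [← Nat.floor_div_eq_div (K := ℝ)]
  exact (Nat.lt_floor_add_one _).le

theorem cells_lgS (a b n : ℕ) :
    (lgS a b n : ℝ) ≤ 2 ^ 61 * ∑ i ∈ range n, ((a : ℝ) / b) ^ (2 * i + 1) / (2 * i + 1) ∧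
      2 ^ 61 * ∑ i ∈ range n, ((a : ℝ) / b) ^ (2 * i + 1) / (2 * i + 1) ≤ lgS a b n + n := by
  induction n with
  | zero => simp [lgS]
  | succ n ih =>
    have h1 := Nat.cast_div_le (α := ℝ) (m := 2 ^ 61 * a ^ (2 * n + 1))
      (n := (2 * n + 1) * b ^ (2 * n + 1))
    have h2 := cells_div (2 ^ 61 * a ^ (2 * n + 1)) ((2 * n + 1) * b ^ (2 * n + 1))
    have e : ((2 ^ 61 * a ^ (2 * n + 1) : ℕ) : ℝ) / ((2 * n + 1) * b ^ (2 * n + 1) : ℕ) =
        2 ^ 61 * (((a : ℝ) / b) ^ (2 * n + 1) / (2 * n + 1)) := by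
      rw [div_pow, div_div, mul_comm ((b : ℝ) ^ _), ← mul_div_assoc]
      simp only [Nat.cast_mul, Nat.cast_pow, Nat.cast_add, Nat.cast_ofNat, Nat.cast_one]
    rw [e] at h1 h2
    rw [lgS, sum_range_succ, mul_add, Nat.cast_add, Nat.cast_succ n]
    exact ⟨by linarith [ih.1], by linarith [ih.2]⟩

theorem cells_z {x y : ℕ} (hx : 0 < x) (hxy : x < y) :
    0 ≤ ((y - x : ℕ) : ℝ) / (y + x : ℕ) ∧ ((y - x : ℕ) : ℝ) / (y + x : ℕ) < 1 ∧
      (1 + ((y - x : ℕ) : ℝ) / (y + x : ℕ)) / (1 - ((y - x : ℕ) : ℝ) / (y + x : ℕ)) = y / x ∧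
      ((2 ^ 61 * (y - x) ^ 25 : ℕ) : ℝ) / ((y + x) ^ 23 * ((y + x) ^ 2 - (y - x) ^ 2) : ℕ) =
        2 ^ 61 * ((((y - x : ℕ) : ℝ) / (y + x : ℕ)) ^ (2 * 12 + 1) /
          (1 - (((y - x : ℕ) : ℝ) / (y + x : ℕ)) ^ 2)) := by
  have h1 : (0 : ℝ) < x := Nat.cast_pos.2 hx
  have h2 : (x : ℝ) < y := Nat.cast_lt.2 hxy
  have h3 : (0 : ℝ) < y + x := by linarith
  have h4 : (y - x) ^ 2 ≤ (y + x) ^ 2 := Nat.pow_le_pow_left (by omega) 2
  rw [Nat.cast_mul, Nat.cast_mul, Nat.cast_sub h4]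
  simp only [Nat.cast_pow, Nat.cast_sub hxy.le, Nat.cast_add, Nat.cast_ofNat]
  refine ⟨div_nonneg (by linarith) h3.le, (div_lt_one h3).2 (by linarith), ?_, ?_⟩
  · rw [one_add_div h3.ne', one_sub_div h3.ne', div_div_div_cancel_right₀ h3.ne',
      div_eq_div_iff (by linarith : (0 : ℝ) < y + x - (y - x)).ne' h1.ne']
    ring
  · generalize (y : ℝ) - x = a
    generalize (y : ℝ) + x = b at h3
    rw [div_pow, div_pow, one_sub_div (pow_pos h3 2).ne', div_div_div_eq, mul_div_assoc,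
      show b ^ (2 * 12 + 1) * (b ^ 2 - a ^ 2) = b ^ 23 * (b ^ 2 - a ^ 2) * b ^ 2 by ring,
      mul_div_mul_right _ _ (pow_pos h3 2).ne']

/-- `Real.sum_range_le_log_div` with `(y - x) / (y + x)`, `Nat.cast_div_le`. -/
theorem lgLo_le {x y : ℕ} (hx : 0 < x) (hxy : x < y) :
    (lgLo x y : ℝ) ≤ 2 ^ 60 * Real.log ((y : ℝ) / x) := by
  obtain ⟨h0, h1, h2, h3⟩ := cells_z hx hxy
  have h4 := Real.sum_range_le_log_div h0 h1 12
  have h5 := (cells_lgS (y - x) (y + x) 12).1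
  rw [h2] at h4
  rw [lgLo]
  linarith

/-- `Real.log_div_le_sum_range_add` with `n = 12`; each of the `13` floors loses less than `1`. -/
theorem le_lgHi {x y : ℕ} (hx : 0 < x) (hxy : x < y) :
    2 ^ 60 * Real.log ((y : ℝ) / x) ≤ lgHi x y := by
  obtain ⟨h0, h1, h2, h3⟩ := cells_z hx hxy
  have h4 := Real.log_div_le_sum_range_add h0 h1 12
  have h5 := (cells_lgS (y - x) (y + x) 12).2
  have h6 := cells_div (2 ^ 61 * (y - x) ^ 25) ((y + x) ^ 23 * ((y + x) ^ 2 - (y - x) ^ 2))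
  rw [h2] at h4
  rw [h3] at h6
  rw [lgHi, lgLo, Nat.cast_add, Nat.cast_add]
  rw [Nat.cast_ofNat] at h5 ⊢
  linarith

theorem mlo_le (y : ℤ) {lo hi : ℕ} {z : ℝ} (h1 : (lo : ℝ) ≤ z) (h2 : z ≤ hi) :
    (mlo y lo hi : ℝ) ≤ y * z := by
  rw [mlo]
  split_ifs with h
  · push_cast
    exact mul_le_mul_of_nonneg_left h1 (Int.cast_nonneg h)
  · push_cast
    exact mul_le_mul_of_nonpos_left h2 (Int.cast_nonpos.2 (not_le.1 h).le)

/-- Elements on which all weights vanish can be removed. -/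
theorem UL_filter (Φ : List (ℝ → ℝ)) (P : ℕ → Prop) [DecidablePred P] (S : Finset ℕ) (t : ℕ → ℝ)
    (h : ∀ φ ∈ Φ, ∀ p ∈ S, ¬ P p → φ (t p) = 0) : UL Φ (S.filter P) t = UL Φ S t := by
  induction Φ generalizing S with
  | nil => rfl
  | cons φ Φ ih =>
    rw [UL, UL, sum_filter]
    refine sum_congr rfl fun p hp => ?_
    split_ifs with hP
    · rw [← filter_erase, ih _ fun ψ hψ q hq => h ψ (List.mem_cons_of_mem _ hψ) q
        (mem_of_mem_erase hq)]
    · rw [h φ List.mem_cons_self p hp hP, zero_mul]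

theorem nice_perm (L La Lb : List Cell) (hL : L.Perm (La ++ Lb)) (h : ∀ c ∈ L, c.ok)
    (ha : (La.map Cell.s).sum ≤ 1 / 2)
    (hb : 3 * (La.map Cell.s).sum + 4 * (Lb.map Cell.s).sum ≤ 2) :
    Nice (UL (L.map Cell.ph)) (L.map Cell.ms).prod := by
  obtain ⟨B, -, hB, -⟩ := exists_wt L h
  exact ⟨good_perm L La Lb hL h ha hb, fun S t => UL_filter _ _ S t fun φ hφ p _ hp =>
    (hB φ hφ).2 _ (not_lt.1 hp)⟩

theorem nice_zero : Nice (fun _ _ => 0) 0 := by
  exact ⟨good_zero, fun _ _ => rfl⟩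

theorem Nice.add {W V : Finset ℕ → (ℕ → ℝ) → ℝ} {m k : ℝ} (hW : Nice W m) (hV : Nice V k) :
    Nice (fun S t => W S t + V S t) (m + k) := by
  exact ⟨good_add hW.1 hV.1, fun S t => congrArg₂ (· + ·) (hW.2 S t) (hV.2 S t)⟩

theorem Nice.smul {W : Finset ℕ → (ℕ → ℝ) → ℝ} {m : ℝ} (c : ℝ) (hW : Nice W m) :
    Nice (fun S t => c * W S t) (c * m) := by
  exact ⟨good_smul c hW.1, fun S t => congrArg (c * ·) (hW.2 S t)⟩

theorem nice_list {ι : Type} (F : List ι) (W : ι → Finset ℕ → (ℕ → ℝ) → ℝ) (m : ι → ℝ)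
    (h : ∀ f ∈ F, Nice (W f) (m f)) :
    Nice (fun S t => (F.map fun f => W f S t).sum) (F.map m).sum := by
  induction F with
  | nil => exact nice_zero
  | cons f F ih =>
    simp only [List.map_cons, List.sum_cons]
    exact (h f List.mem_cons_self).add (ih fun g hg => h g (List.mem_cons_of_mem _ hg))

theorem Nice.dom {W V : Finset ℕ → (ℕ → ℝ) → ℝ} {m k : ℝ} (hW : Nice W m) (hk : k ≤ m)
    (h : ∀ S t, W S t ≤ V S t) : Dom V k := ⟨W, m, hW, hk, h⟩

theorem Dom.mono {W V : Finset ℕ → (ℕ → ℝ) → ℝ} {m k : ℝ} (hW : Dom W m) (hk : k ≤ m)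
    (h : ∀ S t, W S t ≤ V S t) : Dom V k := by
  obtain ⟨U, l, h1, h2, h3⟩ := hW
  exact ⟨U, l, h1, hk.trans h2, fun S t => (h3 S t).trans (h S t)⟩

theorem Dom.add {W V : Finset ℕ → (ℕ → ℝ) → ℝ} {m k : ℝ} (hW : Dom W m) (hV : Dom V k) :
    Dom (fun S t => W S t + V S t) (m + k) := by
  obtain ⟨U, l, h1, h2, h3⟩ := hW
  obtain ⟨U', l', h1', h2', h3'⟩ := hV
  exact ⟨_, _, h1.add h1', add_le_add h2 h2', fun S t => add_le_add (h3 S t) (h3' S t)⟩

theorem Dom.smul {W : Finset ℕ → (ℕ → ℝ) → ℝ} {m c : ℝ} (hc : 0 ≤ c) (hW : Dom W m) :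
    Dom (fun S t => c * W S t) (c * m) := by
  obtain ⟨U, l, h1, h2, h3⟩ := hW
  exact ⟨_, _, h1.smul c, mul_le_mul_of_nonneg_left h2 hc,
    fun S t => mul_le_mul_of_nonneg_left (h3 S t) hc⟩

theorem dom_list {ι : Type} (F : List ι) (W : ι → Finset ℕ → (ℕ → ℝ) → ℝ) (m : ι → ℝ)
    (h : ∀ f ∈ F, Dom (W f) (m f)) :
    Dom (fun S t => (F.map fun f => W f S t).sum) (F.map m).sum := by
  induction F with
  | nil => exact nice_zero.dom le_rfl fun _ _ => le_rfl
  | cons f F ih =>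
    simp only [List.map_cons, List.sum_cons]
    exact (h f List.mem_cons_self).add (ih fun g hg => h g (List.mem_cons_of_mem _ hg))

end Pool.Agent.Lib.MP_7d48f8_nt
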