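import Pool.Agent.Lib.MP_7d48f8_nt.C.Pack

/-! Subset sums of tries. -/

noncomputable section

namespace Pool.Agent.Lib.MP_7d48f8_nt

open Finset Tt

theorem tot_zero {α : Type} [Zero α] [Add α] (ms : List ℕ) (c : Tt α) :
    tot (0 :: ms) c = tot ms c.rs := rfl

theorem tot_succ {α : Type} [Zero α] [Add α] (m : ℕ) (ms : List ℕ) (c : Tt α) :
    tot ((m + 1) :: ms) c = c.hd + tot (m :: ms) c + tot (m :: ms) c.sb := rfl

theorem tot_ind {P : List ℕ → Prop} (h0 : P []) (h1 : ∀ ms, P ms → P (0 :: ms))
    (h2 : ∀ m ms, P (m :: ms) → P ((m + 1) :: ms)) (ms : List ℕ) : P ms := by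
  induction ms with
  | nil => exact h0
  | cons m ms ih =>
    induction m with
    | zero => exact h1 _ ih
    | succ m ih => exact h2 _ _ ih

theorem tot_nil {α : Type} [AddMonoid α] (ms : List ℕ) : tot ms (.nil : Tt α) = 0 := by
  induction ms using tot_ind with
  | h0 => rfl
  | h1 ms ih => exact ih
  | h2 m ms ih =>
    rw [tot_succ, show (nil : Tt α).sb = nil from rfl, ih]
    exact (add_zero _).trans (add_zero _)

theorem tot_sum_zero {α : Type} [Zero α] [Add α] (ms : List ℕ) (h : ms.sum = 0) (c : Tt α) :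
    tot ms c = 0 := by
  induction ms generalizing c with
  | nil => rfl
  | cons m ms ih =>
    rw [List.sum_cons] at h
    obtain rfl : m = 0 := by omega
    exact ih (by omega) _

theorem add_parts (c d : Tt ℕ) : (c.add d).hd = c.hd + d.hd ∧ (c.add d).sb = c.sb.add d.sb ∧
    (c.add d).rs = c.rs.add d.rs := by
  have e : ∀ x : Tt ℕ, x.add nil = x := fun x => by cases x <;> rfl
  cases c with
  | nil => exact ⟨(zero_add _).symm, rfl, rfl⟩
  | nd v s r =>
    cases d with
    | nil => exact ⟨rfl, (e s).symm, (e r).symm⟩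
    | nd v' s' r' => exact ⟨rfl, rfl, rfl⟩

theorem tot_add (ms : List ℕ) (c d : Tt ℕ) : tot ms (c.add d) = tot ms c + tot ms d := by
  induction ms using tot_ind generalizing c d with
  | h0 => rfl
  | h1 ms ih => rw [tot_zero, (add_parts c d).2.2, ih, tot_zero, tot_zero]
  | h2 m ms ih =>
    rw [tot_succ, (add_parts c d).1, (add_parts c d).2.1, ih, ih, tot_succ, tot_succ]
    ring

theorem fin_up (ms : List ℕ) (x : St) : fin ms (up x) = fin (0 :: ms) x := rfl

theorem fin_con (m : ℕ) (ms : List ℕ) (x : St) : fin (m :: ms) (con x) = fin ((m + 1) :: ms) x := by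
  obtain ⟨a, c⟩ := x
  cases c with
  | nil => simp only [fin, con, tot_nil]
  | nd v s r =>
    change a + v + tot (m :: ms) ((nd v s r).add s) =
      a + (v + tot (m :: ms) (nd v s r) + tot (m :: ms) s)
    rw [tot_add]
    ring

theorem rp_tot {U : ℕ} (hU : U ≤ 44) (hU' : 0 < U) (ms : List ℕ) (t : Tt (List ℕ))
    (h : t.all okd = true) : Rp 8 U (tot ms (t.map (pk (csts U)))) (K0 * (2 ^ ms.sum - 1))
      fun u _ => tot ms (t.map (pv · u)) := by
  induction ms using tot_ind generalizing t with
  | h0 => exact rp_zero.mono (Nat.zero_le _)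
  | h1 ms ih =>
    rw [List.sum_cons, zero_add]
    cases t with
    | nil => exact ih nil h
    | nd v s r =>
      simp only [Tt.all, Bool.and_eq_true] at h
      exact ih r h.2.2
  | h2 m ms ih =>
    cases t with
    | nil =>
      rw [show (nil : Tt (List ℕ)).map (pk (csts U)) = nil from rfl, tot_nil]
      exact (rp_zero.mono (Nat.zero_le _)).congr fun u _ => (tot_nil _).symm
    | nd v s r =>
      have h' := h
      simp only [Tt.all, Bool.and_eq_true] at h'
      refine (((rp_pk hU hU' h'.1).add (ih _ h)).add (ih s h'.2.1)).mono (le_of_eq ?_)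
      have : 0 < 2 ^ (m + ms.sum) := Nat.two_pow_pos _
      rw [List.sum_cons, List.sum_cons, Nat.add_right_comm m 1, pow_succ, ← mul_one_add, ← mul_add]
      congr 1
      omega

/-- The value of the terms with mark `k`. -/
def gv (L : List Tm) (k : ℕ) (ms : List ℕ) (u : ℝ) : ℝ :=
  (L.map fun x => if x.k = k then pv x.d u + tot ms (x.t.map (pv · u)) else 0).sum

theorem rp_gat {U : ℕ} (hU : U ≤ 44) (hU' : 0 < U) (ms : List ℕ) (k : ℕ) (L : List Tm)
    (h : (L.all fun x => okd x.d && x.t.all okd) = true) :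
    Rp 8 U (fin ms (gat (csts U) L k)) (L.length * (K0 * 2 ^ ms.sum)) fun u _ => gv L k ms u := by
  induction L with
  | nil =>
    rw [show fin ms (gat (csts U) [] k) = 0 + tot ms nil from rfl, tot_nil]
    exact (rp_zero.mono (Nat.zero_le _)).congr fun u _ => rfl
  | cons x L ih =>
    rw [List.all_cons, Bool.and_eq_true, Bool.and_eq_true] at h
    have e : gat (csts U) (x :: L) k = @Bool.rec (fun _ => St) (gat (csts U) L k)
      (pk (csts U) x.d + (gat (csts U) L k).1, Tt.add (x.t.map (pk (csts U))) (gat (csts U) L k).2)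
      (Nat.beq x.k k) := rfl
    rw [e, List.length_cons]
    by_cases hk : x.k = k
    · rw [show Nat.beq x.k k = true from hk ▸ Nat.beq_refl _, fin, tot_add, add_add_add_comm]
      refine ((((rp_pk hU hU' h.1.1).add (rp_tot hU hU' ms _ h.1.2)).add (ih h.2)).mono
        (le_of_eq ?_)).congr fun u _ => ?_
      · have : 1 ≤ 2 ^ ms.sum := Nat.two_pow_pos _
        rw [← mul_one_add, Nat.add_sub_cancel' this]
        ring
      · simp [gv, hk]
    · rw [Bool.eq_false_iff.2 (fun h => hk (Nat.eq_of_beq_eq_true h))]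
      exact ((ih h.2).mono (Nat.mul_le_mul_right _ (Nat.le_succ _))).congr fun u _ => by
        simp [gv, hk]

end Pool.Agent.Lib.MP_7d48f8_nt
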