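import Pool.Agent.Lib.MP_7d48f8_nt.C.RDefs
import Pool.Agent.Lib.MP_7d48f8_nt.C.Tot
import Pool.Agent.Lib.MP_7d48f8_nt.C.RDefsEq

/-! The function of a trie depends only on the numbers of elements in the cells. -/

noncomputable section

namespace Pool.Agent.Lib.MP_7d48f8_nt

open Finset Tt

def Bn (ms : List ℕ) (n : ℕ) : Tt ℝ → ℕ → ℝ
  | .nil, _ => 0
  | .nd v s r, k => n.choose k * tot ms r + n.choose (k + 1) * v + Bn ms n s (k + 1)

theorem Bn_lt (ms : List ℕ) (n : ℕ) (c : Tt ℝ) : ∀ k, n < k → Bn ms n c k = 0 := by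
  induction c with
  | nil => exact fun _ _ => rfl
  | nd v s r i1 _ =>
    intro k hk
    rw [Bn, i1 _ (by omega), Nat.choose_eq_zero_of_lt hk, Nat.choose_eq_zero_of_lt (by omega)]
    simp

theorem Bn_succ (ms : List ℕ) (n : ℕ) (c : Tt ℝ) :
    ∀ k, Bn ms (n + 1) c (k + 1) = Bn ms n c k + Bn ms n c (k + 1) := by
  induction c with
  | nil => exact fun _ => (add_zero _).symm
  | nd v s r i1 _ =>
    intro k
    simp only [Bn, i1, Nat.choose_succ_succ', Nat.cast_add]
    ring

theorem tot_Bn (ms : List ℕ) (m : ℕ) : ∀ c : Tt ℝ, tot (m :: ms) c = Bn ms m c 0 := by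
  induction m with
  | zero =>
    intro c
    cases c with
    | nil => exact tot_nil _
    | nd v s r =>
      rw [Bn, Bn_lt _ _ _ _ (by omega), tot_zero]
      simp [rs]
  | succ m ih =>
    intro c
    cases c with
    | nil => exact tot_nil _
    | nd v s r =>
      rw [tot_succ, ih, ih, Bn, Bn, Bn_succ]
      simp only [hd, sb, Nat.choose_zero_right, zero_add, Nat.choose_one_right, Nat.cast_add,
        Nat.cast_one]
      ring

theorem ind_cases (j : ℕ) (t : ℝ) :
    (ind j t = 1 ∧ (j : ℝ) ≤ 44 * t ∧ 44 * t < j + 1) ∨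
      (ind j t = 0 ∧ ¬ ((j : ℝ) ≤ 44 * t ∧ 44 * t < j + 1)) := by
  unfold ind
  split_ifs with h
  · exact Or.inl ⟨rfl, h⟩
  · exact Or.inr ⟨rfl, h⟩

/-- The numbers of elements in the cells from `j` on are `ms`. -/
def Cn (t : ℕ → ℝ) (S : Finset ℕ) : ℕ → List ℕ → Prop
  | j, [] => ∀ p ∈ S, 44 * t p < j
  | j, m :: ms => ∑ p ∈ S, ind j (t p) = m ∧ Cn t S (j + 1) ms

theorem Cn.erase {t : ℕ → ℝ} {S : Finset ℕ} {p : ℕ} (ms : List ℕ) :
    ∀ j : ℕ, 44 * t p < j → Cn t S j ms → Cn t (S.erase p) j ms := by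
  induction ms with
  | nil => exact fun j _ h q hq => h q (mem_of_mem_erase hq)
  | cons m ms ih =>
    intro j hj h
    refine ⟨?_, ih _ (by push_cast; linarith) h.2⟩
    rw [sum_erase _ (by rw [ind, if_neg fun h => by linarith [h.1]]), h.1]

theorem EVo_Bn (u : ℝ) (t : ℕ → ℝ) (T : Tt (List ℕ)) : ∀ j S,
    (∀ k, Cn t S j [] → EVo u t T j k S = 0) ∧ ∀ k m ms, Cn t S j (m :: ms) →
      ((m + k).choose k : ℝ) * EVo u t T j k S = Bn ms (m + k) (T.map (pv · u)) k := by
  induction T with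
  | nil => exact fun j S => ⟨fun _ _ => rfl, fun k m ms _ => mul_zero _⟩
  | nd d s r i1 i2 =>
    refine fun j S => ⟨fun k h => ?_, fun k m ms h => ?_⟩
    · rw [EVo, (i2 _ _).1 _ fun p hp => by push_cast; linarith [h p hp], sum_eq_zero, zero_div,
        add_zero]
      intro p hp
      rw [ind, if_neg fun h' => by linarith [h'.1, h p hp], zero_mul]
    have e1 : EVo u t r (j + 1) 0 S = tot ms (r.map (pv · u)) := by
      cases ms with
      | nil => exact (i2 _ _).1 _ h.2
      | cons m' ms =>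
        have := (i2 _ _).2 0 _ _ h.2
        rwa [Nat.choose_zero_right, Nat.cast_one, one_mul, add_zero, ← tot_Bn] at this
    change _ = ((m + k).choose k : ℝ) * tot ms (r.map (pv · u)) + (m + k).choose (k + 1) * pv d u +
      Bn ms (m + k) (s.map (pv · u)) (k + 1)
    rw [EVo, e1]
    cases m with
    | zero =>
      rw [sum_eq_zero, Bn_lt _ _ _ _ (by omega), Nat.choose_eq_zero_of_lt (k := k + 1) (by omega)]
      · simp
      intro p hp
      have := (sum_eq_zero_iff_of_nonneg fun p _ => by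
        rcases ind_cases j (t p) with h | h <;> simp [h.1]).1 (h.1.trans Nat.cast_zero) p hp
      rw [this, zero_mul]
    | succ m =>
      have c0 : ((m + 1 + k).choose (k + 1) : ℝ) ≠ 0 :=
        Nat.cast_ne_zero.2 (Nat.choose_pos (by omega)).ne'
      have c1 : ((m + 1 + k).choose (k + 1) : ℝ) * (k + 1) = (m + 1 + k).choose k * (m + 1) := by
        have := Nat.choose_succ_right_eq (m + 1 + k) k
        rw [Nat.add_sub_cancel] at this
        exact_mod_cast this
      rw [sum_congr rfl (g := fun p => ind j (t p) * (pv d u +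
        Bn ms (m + 1 + k) (s.map (pv · u)) (k + 1) / (m + 1 + k).choose (k + 1))), ← sum_mul, h.1]
      · push_cast
        field_simp
        linear_combination (-(pv d u) * ((m + 1 + k).choose (k + 1) : ℝ) -
          Bn ms (m + 1 + k) (s.map (pv · u)) (k + 1)) * c1
      intro p hp
      rcases ind_cases j (t p) with h' | h'
      · have := (i1 j (S.erase p)).2 (k + 1) m ms ⟨by
          have := add_sum_erase S (fun p => ind j (t p)) hp
          rw [h.1, h'.1] at this
          push_cast at this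
          linarith, Cn.erase _ _ (by push_cast; exact h'.2.2) h.2⟩
        rw [show m + (k + 1) = m + 1 + k by ring] at this
        rw [← this, mul_div_cancel_left₀ _ c0]
      · rw [h'.1, zero_mul, zero_mul]

theorem EVo_tot (u : ℝ) (t : ℕ → ℝ) (T : Tt (List ℕ)) {j : ℕ} {S : Finset ℕ} {ms : List ℕ}
    (h : Cn t S j ms) : EVo u t T j 0 S = tot ms (T.map (pv · u)) := by
  cases ms with
  | nil => exact (EVo_Bn u t T _ _).1 _ h
  | cons m ms =>
    have := (EVo_Bn u t T _ _).2 0 _ _ h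
    rwa [Nat.choose_zero_right, Nat.cast_one, one_mul, add_zero, ← tot_Bn] at this

theorem cn_range (t : ℕ → ℝ) (S : Finset ℕ) (M : ℕ → ℕ) (n : ℕ) : ∀ j : ℕ,
    (∀ i, j ≤ i → ∑ p ∈ S, ind i (t p) = M i) → (∀ p ∈ S, 44 * t p < j + n) →
    Cn t S j ((List.range' j n).map M) := by
  induction n with
  | zero => exact fun j _ h p hp => by simpa using h p hp
  | succ n ih =>
    intro j h1 h2
    exact ⟨h1 j le_rfl, ih _ (fun i hi => h1 i (by omega)) fun p hp => by
      have := h2 p hp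
      push_cast at this ⊢
      linarith⟩

/-- The maximum of a linear function on a slice of the cube. -/
theorem knap (S : Finset ℕ) (b δ : ℕ → ℝ) {R : ℕ} {φ : ℝ} (h : ∀ p ∈ S, 0 ≤ δ p ∧ δ p ≤ 1)
    (hs : ∑ p ∈ S, δ p = R + φ) (hR : R < S.card) :
    ∃ T ⊆ S, ∃ q ∈ S, q ∉ T ∧ T.card = R ∧ ∑ p ∈ S, δ p * b p ≤ ∑ p ∈ T, b p + φ * b q := by
  obtain ⟨T, hT, hm⟩ := exists_max_image (powersetCard R S) (fun T => ∑ p ∈ T, b p)
    (powersetCard_nonempty.2 hR.le)
  obtain ⟨t1, t2⟩ := mem_powersetCard.1 hT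
  obtain ⟨q, hq, hq'⟩ := exists_max_image (S \ T) b (by
    rw [← card_pos, card_sdiff_of_subset t1]
    omega)
  obtain ⟨q1, q2⟩ := mem_sdiff.1 hq
  refine ⟨T, t1, q, q1, q2, t2, ?_⟩
  have a1 : ∀ p ∈ T, δ p * (b p - b q) ≤ b p - b q := fun p hp => by
    have e : q ∉ T.erase p := fun h => q2 (mem_of_mem_erase h)
    have := hm (insert q (T.erase p)) (mem_powersetCard.2
      ⟨insert_subset q1 ((erase_subset _ _).trans t1), by
        rw [card_insert_of_notMem e, card_erase_add_one hp, t2]⟩)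
    rw [sum_insert e, ← add_sum_erase T b hp] at this
    nlinarith [(h p (t1 hp)).2]
  have a2 : ∑ p ∈ S \ T, δ p * (b p - b q) ≤ 0 := sum_nonpos fun p hp =>
    mul_nonpos_of_nonneg_of_nonpos (h p (mem_sdiff.1 hp).1).1 (sub_nonpos.2 (hq' p hp))
  have a3 := sum_le_sum a1
  have a4 := sum_sdiff t1 (f := fun p => δ p * (b p - b q))
  simp only [mul_sub, sum_sub_distrib, ← sum_mul, hs, sum_const, t2, nsmul_eq_mul] at a2 a3 a4
  linarith

end Pool.Agent.Lib.MP_7d48f8_nt
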