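import Mathlib

/-! The checker for the certificate: packed polynomials, tries, search over patterns and edges. -/

noncomputable section

namespace Pool.Agent.Lib.MP_7d48f8_nt

open Finset

/-- Tries: the value and the subtrie for taking the current level, the trie for the next level. -/
inductive Tt (α : Type) where
  | nil : Tt α
  | nd (v : α) (s r : Tt α) : Tt α

namespace Tt

variable {α β : Type}

def map (f : α → β) (t : Tt α) : Tt β :=
  @Tt.rec α (fun _ => Tt β) .nil (fun v _ _ s r => .nd (f v) s r) t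

def hd [Zero α] (t : Tt α) : α := @Tt.rec α (fun _ => α) 0 (fun v _ _ _ _ => v) t

def sb (t : Tt α) : Tt α := @Tt.rec α (fun _ => Tt α) .nil (fun _ s _ _ _ => s) t

def rs (t : Tt α) : Tt α := @Tt.rec α (fun _ => Tt α) .nil (fun _ _ r _ _ => r) t

def all (p : α → Bool) (t : Tt α) : Bool :=
  @Tt.rec α (fun _ => Bool) true (fun v _ _ s r => p v && (s && r)) t

def add (x : Tt ℕ) : Tt ℕ → Tt ℕ :=
  @Tt.rec ℕ (fun _ => Tt ℕ → Tt ℕ) (fun y => y) (fun v s r as ar y =>
    @Tt.rec ℕ (fun _ => Tt ℕ) (.nd v s r)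
      (fun v' s' r' _ _ => .nd (Nat.add v v') (as s') (ar r')) y) x

/-- The sum over the nonempty subsets of a set with `ms` elements on the successive levels. -/
def tot [Zero α] [Add α] : List ℕ → Tt α → α
  | [], _ => 0
  | m :: ms, c => Nat.rec (motive := fun _ => Tt α → α) (fun c => tot ms c.rs)
      (fun _ ih c => c.hd + ih c + ih c.sb) m c

end Tt

def be : ℕ := 2 ^ 144

def B0 : ℕ := 2 ^ 90

def K0 : ℕ := 2 ^ 108

def MM (U : ℕ) : ℕ := 2 ^ (1440 * U)

/-- The polynomial with coefficients `B0 - c`. -/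
def pv : List ℕ → ℝ → ℝ
  | [], _ => 0
  | c :: d, u => (B0 : ℝ) - c + u * pv d u

/-- The packed Bernstein coefficients of `u ^ m` on the intervals `[k, k + 1]`, `k < U`. -/
def cst (U m : ℕ) : ℕ :=
  Nat.rec 0 (fun k z => z + (k + 1 + k * be) ^ m * (1 + be) ^ (8 - m) * 2 ^ (1440 * k)) U

def csts (U : ℕ) : List (ℕ × ℕ) :=
  (List.range 9).map fun m => (cst U m, (MM U - B0) * cst U m % MM U)

def pk (C : List (ℕ × ℕ)) (d : List ℕ) : ℕ :=
  @List.rec ℕ (fun _ => List (ℕ × ℕ) → ℕ) (fun _ => 0) (fun c _ ih C =>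
    @List.rec (ℕ × ℕ) (fun _ => ℕ) 0
      (fun p C _ => Nat.add (Nat.add (Nat.mul c p.1) p.2) (ih C)) C) d C

/-- A bound for the packed coefficients. -/
def nrm : List ℕ → ℕ → ℕ
  | [], _ => 0
  | c :: d, m => (c - B0 + (B0 - c)) * (88 ^ m * 2 ^ (8 - m)) + nrm d (m + 1)

def okd (d : List ℕ) : Bool := Nat.ble d.length 9 && Nat.ble (nrm d 0) K0

abbrev St := ℕ × Tt ℕ

def con (x : St) : St :=
  @Tt.rec ℕ (fun _ => St) x (fun v s _ _ _ => (Nat.add x.1 v, Tt.add x.2 s)) x.2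

def up (x : St) : St := (x.1, x.2.rs)

def mp (f : St → St) (l : List St) : List St :=
  @List.rec St (fun _ => List St) [] (fun x _ ih => f x :: ih) l

def mq (f : St → St) (l : List (ℕ × St)) : List (ℕ × St) :=
  @List.rec (ℕ × St) (fun _ => List (ℕ × St)) [] (fun x _ ih => (x.1, f x.2) :: ih) l

def bump (l : List (ℕ × St)) : List (ℕ × St) :=
  @List.rec (ℕ × St) (fun _ => List (ℕ × St)) [] (fun x l _ => (Nat.succ x.1, x.2) :: l) l

def HF (U : ℕ) : ℕ := 2 ^ 143 * ((2 ^ (1440 * U) - 1) / (2 ^ 144 - 1))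

def HH : ℕ := HF 1

def tst (acc sh : ℕ) : Bool := Nat.beq (Nat.land (Nat.shiftRight acc sh) HH) HH

def e1 (gs : List (ℕ × ℕ × ℕ)) : ℕ → ℕ → Bool :=
  @List.rec (ℕ × ℕ × ℕ) (fun _ => ℕ → ℕ → Bool) tst (fun g _ ih =>
    @Nat.rec (fun _ => ℕ → ℕ → Bool) ih (fun _ im acc sh =>
      @Bool.rec (fun _ => Bool)
        (@Bool.rec (fun _ => Bool) false (im (Nat.add acc g.2.1) (Nat.sub sh 1440)) (ih acc sh))
        (tst acc sh) (Nat.beq sh 0)) g.1) gs

def e0 (gs : List (ℕ × ℕ × ℕ)) : ℕ → ℕ → Bool :=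
  @List.rec (ℕ × ℕ × ℕ) (fun _ => ℕ → ℕ → Bool) (fun _ _ => true) (fun g gs ih =>
    @Nat.rec (fun _ => ℕ → ℕ → Bool) ih (fun _ im acc sh =>
      @Bool.rec (fun _ => Bool) false
        (@Bool.rec (fun _ => Bool) false
          (@Bool.rec (fun _ => Bool) (im (Nat.add acc g.2.1) (Nat.sub sh 1440)) true (Nat.beq sh 0))
          (ih acc sh))
        (e1 gs (Nat.add acc g.2.2) sh)) g.1) gs

def prep (Q : ℕ) (l : List (ℕ × St)) : List (ℕ × ℕ × ℕ) :=
  @List.rec (ℕ × St) (fun _ => List (ℕ × ℕ × ℕ)) [] (fun x _ ih =>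
    (x.1, Nat.add (Nat.mod x.2.1 Q) (Nat.shiftLeft (Nat.mod x.2.1 Q) 144),
      Nat.shiftLeft (Nat.mod x.2.1 Q) 144) :: ih) l

def chkP (H A : ℕ) (act : List (ℕ × St)) (rem : ℕ) : Bool :=
  e0 (prep (Nat.pow 2 (Nat.mul 1440 rem)) act)
    (Nat.mod (Nat.add (Nat.add A (Nat.shiftLeft A 144)) H) (Nat.pow 2 (Nat.mul 1440 rem)))
    (Nat.mul 1440 (Nat.pred rem))

/-- The search over the patterns with `lo < rem ≤ U` that pass `sel` on every level. -/
def go (H lo U : ℕ) (sel : ℕ → ℕ → Bool) (fuel : ℕ) :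
    Bool → ℕ → St → List (ℕ × St) → List St → ℕ → Bool :=
  @Nat.rec (fun _ => Bool → ℕ → St → List (ℕ × St) → List St → ℕ → Bool)
    (fun _ _ _ _ _ _ => false) (fun _ ih b j A act fs rem =>
    @Bool.rec (fun _ => Bool)
      (@List.rec St (fun _ => Bool) true (fun f fs _ =>
        @Bool.rec (fun _ => Bool) true
          (@Bool.rec (fun _ => Bool) false
            (ih false (Nat.succ j) (up A) (mq up act) (mp up fs) rem)
            (ih true j (con A) ((1, f) :: mq con act) (mp con fs) (Nat.sub rem j)))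
          (Nat.ble (Nat.succ (Nat.add j lo)) rem && sel j rem)) fs)
      (@Bool.rec (fun _ => Bool) false
        (@Bool.rec (fun _ => Bool) true
          (@Bool.rec (fun _ => Bool) false
            (ih false (Nat.succ j) (up A) (mq up act) (mp up fs) rem)
            (ih true j (con A) (bump (mq con act)) (mp con fs) (Nat.sub rem j)))
          (Nat.ble (Nat.succ (Nat.add j lo)) rem))
        (@Bool.rec (fun _ => Bool) true (chkP H A.1 act rem) (Nat.ble rem U))) b) fuel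

/-- A term of the certificate: marked level (`0` for none), root polynomial, trie. -/
structure Tm where
  k : ℕ
  d : List ℕ
  t : Tt (List ℕ)

/-- The packed sum of the terms with mark `k`. -/
def gat (C : List (ℕ × ℕ)) (L : List Tm) (k : ℕ) : St :=
  @List.rec Tm (fun _ => St) (0, .nil) (fun x _ ih =>
    @Bool.rec (fun _ => St) ih (Nat.add (pk C x.d) ih.1, Tt.add (x.t.map (pk C)) ih.2)
      (Nat.beq x.k k)) L

def chk (L : List Tm) (lo U K k : ℕ) : Bool :=
  go (HF U) lo U (fun j rem => !Nat.beq j 5 || Nat.beq (rem % K) k) 100 false 2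
    (gat (csts U) L 0) [] ((List.range' 2 31).map (gat (csts U) L)) 44

def okL (L : List Tm) : Bool := Nat.ble L.length 128 && L.all fun x => okd x.d && x.t.all okd

/-- `X` packs, for `k < U`, the coefficients of `- F (k + 1 - φ) φ` in the basis
`φ ^ i * (1 - φ) ^ (n - i)`, all of them bounded by `K`. -/
def Rp (n U X K : ℕ) (F : ℝ → ℝ → ℝ) : Prop :=
  ∃ c : ℕ → ℕ → ℤ,
    (X : ℤ) ≡ ∑ k ∈ range U, (∑ i ∈ range (n + 1), c k i * (be : ℤ) ^ i) * 2 ^ (1440 * k)
      [ZMOD 2 ^ (1440 * U)] ∧ (∀ k i, |c k i| ≤ K) ∧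
    ∀ k < U, ∀ φ : ℝ, ∑ i ∈ range (n + 1), (c k i : ℝ) * (φ ^ i * (1 - φ) ^ (n - i)) =
      - F (k + 1 - φ) φ

/-- The weight of a pattern starting at level `j`. -/
def wtL : ℕ → List ℕ → ℕ
  | _, [] => 0
  | j, m :: ms => j * m + wtL (j + 1) ms

/-- The occupied levels, in decreasing order, in front of `acc`. -/
def lv : ℕ → List ℕ → List ℕ → List ℕ
  | _, [], acc => acc
  | j, m :: ms, acc => lv (j + 1) ms (if m = 0 then acc else j :: acc)

/-- The final value of a state. -/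
def fin (ms : List ℕ) (x : St) : ℕ := x.1 + Tt.tot ms x.2

end Pool.Agent.Lib.MP_7d48f8_nt
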