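import Pool.Agent.Lib.MP_7d48f8_nt.C.Cells
import Pool.Agent.Lib.MP_7d48f8_nt.C.DefsEq

/-! Polynomials in the total size of the small primes. -/

noncomputable section

namespace Pool.Agent.Lib.MP_7d48f8_nt

open Finset MeasureTheory Filter Topology

theorem dust_sum {ι : Type} (l : List ι) (S : Finset ℕ) (a : ℕ → ℝ) (f : ι → ℕ → ℝ) :
    (l.map fun E => ∑ p ∈ S, a p * f E p).sum = ∑ p ∈ S, a p * (l.map fun E => f E p).sum := by
  induction l with
  | nil => simp
  | cons E l ih => simp only [List.map_cons, List.sum_cons, ih, mul_add, sum_add_distrib]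

theorem dust_dw (k : ℕ) (t : ℝ) : dw (k + 1) t = dw k t * dw 0 t := by
  unfold dw
  split_ifs <;> ring

theorem dust_len {E : List ℕ} : ∀ E' ∈ bumps E, E'.length = E.length := by
  induction E with
  | nil => simp [bumps]
  | cons k E ih =>
    intro E' h
    rcases List.mem_cons.1 h with rfl | h
    · rfl
    · obtain ⟨A, hA, rfl⟩ := List.mem_map.1 h
      rw [List.length_cons, List.length_cons, ih A hA]

theorem dust_adm {L : List Cell} {m n : ℕ} (h : Adm L n) (hm : m ≤ n) : Adm L m := by
  obtain ⟨La, Lb, ma, mb, h1, h2, h3⟩ := h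
  exact ⟨La, Lb, ma, mb, h1, hm.trans h2, h3⟩

theorem dust_s (E : List ℕ) (L : List Cell) {n : ℕ} (h : E.length ≤ n) :
    ((E.map dc ++ L).map Cell.s).sum ≤ (L.map Cell.s).sum + n * (2 / 44) := by
  have h1 : (E.length : ℝ) ≤ n := Nat.cast_le.2 h
  have h2 : (E.map dc).map Cell.s = List.replicate E.length (2 / 44) := by
    rw [List.map_map, ← List.map_const']
    rfl
  rw [List.map_append, List.sum_append, h2, List.sum_replicate, nsmul_eq_mul]
  linarith

theorem uu_mul (L : List Cell) (h : ∀ c ∈ L, 2 / 44 ≤ c.r) (E : List ℕ) (S : Finset ℕ) (t : ℕ → ℝ) :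
    uu S t * UL ((E.map dc ++ L).map Cell.ph) S t =
      UL (((0 :: E).map dc ++ L).map Cell.ph) S t +
        ((bumps E).map fun E' => UL ((E'.map dc ++ L).map Cell.ph) S t).sum := by
  induction E generalizing S with
  | nil =>
    simp only [bumps, List.map_nil, List.sum_nil, add_zero, List.nil_append, List.map_cons,
      List.cons_append, UL, dc_ph]
    rw [uu, sum_mul]
    refine sum_congr rfl fun p _ => ?_
    by_cases hp : 0 ≤ t p ∧ 44 * t p < 2
    · rw [← filter_ne', UL_filter]
      intro φ hφ q _ hq
      obtain ⟨c, hc, rfl⟩ := List.mem_map.1 hφ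
      rw [not_not.1 hq]
      exact if_neg fun h1 => by linarith [h c hc, h1.1, hp.2]
    · rw [dw, if_neg hp, zero_mul, zero_mul]
  | cons k E ih =>
    rw [UL_perm (Φ := ((0 :: k :: E).map dc ++ L).map Cell.ph)
      (Ψ := ((k :: 0 :: E).map dc ++ L).map Cell.ph) (List.Perm.swap _ _ _)]
    simp only [List.map_cons, List.cons_append] at ih
    simp only [bumps, List.map_cons, List.cons_append, List.sum_cons, List.map_map,
      Function.comp_def]
    rw [UL, UL, UL]
    simp only [UL.eq_2 _ _ (dc k).ph]
    rw [dust_sum, mul_sum, ← sum_add_distrib, ← sum_add_distrib]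
    refine sum_congr rfl fun p hp => ?_
    have h1 := ih (S.erase p)
    have h2 : uu S t = dw 0 (t p) + uu (S.erase p) t := (add_sum_erase S _ hp).symm
    rw [h2, dc_ph, dc_ph (k + 1), dust_dw]
    linear_combination dw k (t p) * h1

theorem nice_dust (L : List Cell) (h : ∀ c ∈ L, c.ok ∧ 2 / 44 ≤ c.r) (m : ℕ) (E : List ℕ)
    (hA : Adm L (E.length + m)) :
    Nice (fun S t => uu S t ^ m * UL ((E.map dc ++ L).map Cell.ph) S t)
      (FF m E * (L.map Cell.ms).prod) := by
  induction m generalizing E with
  | zero =>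
    obtain ⟨La, Lb, ma, mb, h1, h2, h3, h4⟩ := hA
    have a := dust_s (E.take ma) La (List.length_take_le _ _)
    have b := dust_s (E.drop ma) Lb (n := mb) (by rw [List.length_drop]; omega)
    have h5 := nice_perm (E.map dc ++ L) ((E.take ma).map dc ++ La) ((E.drop ma).map dc ++ Lb) (by
      rw [← List.take_append_drop ma E, List.map_append, List.take_append_drop, List.append_assoc,
        List.append_assoc]
      exact ((h1.append_left _).trans (List.perm_append_comm_assoc _ _ _)).append_left _)
      (fun c hc => (List.mem_append.1 hc).elim (fun hc => by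
        obtain ⟨k, -, rfl⟩ := List.mem_map.1 hc
        exact dc_ok k) fun hc => (h c hc).1) (by linarith) (by linarith)
    have e : ((FF 0 E : ℚ) : ℝ) = ((E.map dc).map Cell.ms).prod := by
      rw [FF, Rat.cast_list_prod, List.map_map, List.map_map]
      refine congrArg _ (List.map_congr_left fun k _ => ?_)
      simp only [Function.comp_apply, dc_ms]
      push_cast
      rfl
    simp only [pow_zero, one_mul]
    rwa [e, ← List.prod_append, ← List.map_append]
  | succ m ih =>
    have h1 := (ih (0 :: E) (dust_adm hA (by rw [List.length_cons]; omega))).add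
      (nice_list (bumps E) _ _ fun E' hE => ih E' (dust_adm hA (by rw [dust_len E' hE]; omega)))
    simp only [List.sum_map_mul_left, List.sum_map_mul_right, ← mul_add, ← add_mul,
      ← uu_mul L fun c hc => (h c hc).2] at h1
    simp only [pow_succ, mul_assoc, FF, Rat.cast_add, Rat.cast_list_sum, List.map_map]
    exact h1

theorem FF_eq : (List.range 9).map (fun m => 315 * FF m []) = muN.map (fun n : ℕ => (n : ℚ)) := by
  decide +kernel

theorem dust_pv (L : List Cell) (h : ∀ c ∈ L, c.ok ∧ 2 / 44 ≤ c.r) (d : List ℕ) (m : ℕ)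
    (hd : m + d.length ≤ 9) (hA : d ≠ [] → Adm L (m + d.length - 1)) :
    Nice (fun S t => uu S t ^ m * pv d (uu S t) * UL (L.map Cell.ph) S t)
      ((yv d (muN.drop m) : ℝ) / 315 * (L.map Cell.ms).prod) := by
  induction d generalizing m with
  | nil => simpa only [pv, yv, mul_zero, zero_mul, Int.cast_zero, zero_div] using nice_zero
  | cons c d ih =>
    rw [List.length_cons] at hd hA
    have hm : m < muN.length := show m < 9 by omega
    have h0 := hA (List.cons_ne_nil _ _)
    have h1 := ((nice_dust L h m [] (dust_adm h0 (by rw [List.length_nil]; omega))).smul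
      ((B0 : ℝ) - c)).add (ih (m + 1) (by omega) fun _ => dust_adm h0 (by omega))
    have h2 : 315 * FF m [] = muN[m] := by
      have := congrArg (fun l => l[m]?) FF_eq
      simpa [List.getElem?_eq_getElem hm, List.getElem?_range (show m < 9 from hm)] using this
    have h3 : ((FF m [] : ℚ) : ℝ) = muN[m] / 315 := by
      rw [eq_div_iff (by norm_num), mul_comm]
      exact_mod_cast h2
    rw [List.drop_eq_getElem_cons hm, yv]
    rw [h3, List.map_nil, List.nil_append] at h1
    refine (congrArg₂ Nice (funext fun S => funext fun t => ?_) ?_).mp h1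
    · rw [pv]
      ring
    · push_cast
      ring

theorem nice_pv (L : List Cell) (h : ∀ c ∈ L, c.ok ∧ 2 / 44 ≤ c.r) (d : List ℕ) (hd : d.length ≤ 9)
    (hA : d ≠ [] → Adm L (d.length - 1)) :
    Nice (fun S t => pv d (uu S t) * UL (L.map Cell.ph) S t)
      ((yv d muN : ℝ) / 315 * (L.map Cell.ms).prod) := by
  simpa only [pow_zero, one_mul, List.drop_zero] using
    dust_pv L h d 0 (by omega) (by rwa [zero_add])

end Pool.Agent.Lib.MP_7d48f8_nt
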