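import Pool.Agent.Lib.MP_7d48f8_nt.C.Pack

/-! The search over the edges of one pattern. -/

noncomputable section

namespace Pool.Agent.Lib.MP_7d48f8_nt

open Finset

variable {D : Type} (M P Q on : D → ℕ)

theorem e1_sound (ds : List D) (hon : ∀ d ∈ ds, on d ≤ M d) : ∀ acc k, (ds.map on).sum ≤ k →
    e1 (ds.map fun d => (M d, P d, Q d)) acc (1440 * k) = true →
    tst (acc + (ds.map fun d => on d * P d).sum) (1440 * (k - (ds.map on).sum)) = true := by
  induction ds with
  | nil => exact fun acc k _ h => h
  | cons d ds ih =>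
    replace ih := ih fun e he => hon e (List.mem_cons_of_mem _ he)
    have h0 := hon d List.mem_cons_self
    simp only [List.map_cons, List.sum_cons]
    generalize on d = o at h0
    generalize M d = m at h0
    induction m generalizing o with
    | zero =>
      obtain rfl : o = 0 := by omega
      intro acc k hk h
      simpa using ih acc k (by omega) h
    | succ m im =>
      intro acc k hk h
      change @Bool.rec (fun _ => Bool) (@Bool.rec (fun _ => Bool) false
        (e1 ((m, P d, Q d) :: ds.map fun d => (M d, P d, Q d)) (acc + P d) (1440 * k - 1440))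
        (e1 (ds.map fun d => (M d, P d, Q d)) acc (1440 * k))) (tst acc (1440 * k))
        (Nat.beq (1440 * k) 0) = true at h
      cases k with
      | zero =>
        have h1 : (ds.map on).sum = 0 := by omega
        have h2 : (ds.map fun d => on d * P d).sum = 0 := by
          refine List.sum_eq_zero fun x hx => ?_
          obtain ⟨e, he, rfl⟩ := List.mem_map.1 hx
          rw [List.sum_eq_zero_iff.1 h1 _ (List.mem_map_of_mem he), zero_mul]
        obtain rfl : o = 0 := by omega
        simpa [h2] using h
      | succ k =>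
        rw [show Nat.beq (1440 * (k + 1)) 0 = false from rfl] at h
        cases h1 : e1 (ds.map fun d => (M d, P d, Q d)) acc (1440 * (k + 1)) with
        | false => simp [h1] at h
        | true =>
          cases o with
          | zero => simpa using ih acc _ (by omega) h1
          | succ o =>
            rw [h1, show 1440 * (k + 1) - 1440 = 1440 * k by omega] at h
            have := im o (by omega) _ k (by omega) h
            rwa [show k - (o + (ds.map on).sum) = k + 1 - (o + 1 + (ds.map on).sum) by omega,
              show acc + P d + (o * P d + (ds.map fun d => on d * P d).sum) =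
                acc + ((o + 1) * P d + (ds.map fun d => on d * P d).sum) by ring] at this

theorem e0_sound (ds : List D) (hon : ∀ d ∈ ds, on d ≤ M d) {q : D} (hq : q ∈ ds)
    (hq' : on q < M q) : ∀ acc k, (ds.map on).sum ≤ k →
    e0 (ds.map fun d => (M d, P d, Q d)) acc (1440 * k) = true →
    tst (acc + Q q + (ds.map fun d => on d * P d).sum) (1440 * (k - (ds.map on).sum)) = true := by
  induction ds with
  | nil => cases hq
  | cons d ds ih =>
    have hon' : ∀ e ∈ ds, on e ≤ M e := fun e he => hon e (List.mem_cons_of_mem _ he)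
    have h0 : on d ≤ M d ∧ (on d < M d ∧ Q q = Q d ∨ q ∈ ds) := by
      refine ⟨hon d List.mem_cons_self, ?_⟩
      rcases List.mem_cons.1 hq with rfl | h
      · exact .inl ⟨hq', rfl⟩
      · exact .inr h
    simp only [List.map_cons, List.sum_cons]
    generalize on d = o at h0
    generalize M d = m at h0
    induction m generalizing o with
    | zero =>
      obtain rfl : o = 0 := by omega
      intro acc k hk h
      simpa using ih hon' (h0.2.resolve_left (by omega)) acc k (by omega) h
    | succ m im =>
      intro acc k hk h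
      change @Bool.rec (fun _ => Bool) false (@Bool.rec (fun _ => Bool) false
        (@Bool.rec (fun _ => Bool) (e0 ((m, P d, Q d) :: ds.map fun d => (M d, P d, Q d))
          (acc + P d) (1440 * k - 1440)) true (Nat.beq (1440 * k) 0))
        (e0 (ds.map fun d => (M d, P d, Q d)) acc (1440 * k)))
        (e1 (ds.map fun d => (M d, P d, Q d)) (acc + Q d) (1440 * k)) = true at h
      cases h1 : e1 (ds.map fun d => (M d, P d, Q d)) (acc + Q d) (1440 * k) with
      | false => simp [h1] at h
      | true =>
      cases h2 : e0 (ds.map fun d => (M d, P d, Q d)) acc (1440 * k) with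
      | false => simp [h1, h2] at h
      | true =>
      cases o with
      | zero =>
        rcases h0.2 with h3 | h3
        · simpa [h3.2] using e1_sound M P Q on ds hon' _ k (by omega) h1
        · simpa using ih hon' h3 acc k (by omega) h2
      | succ o =>
        obtain ⟨k, rfl⟩ : ∃ k', k = k' + 1 := ⟨k - 1, by omega⟩
        rw [h1, h2, show Nat.beq (1440 * (k + 1)) 0 = false from rfl,
          show 1440 * (k + 1) - 1440 = 1440 * k by omega] at h
        have := im o ⟨by omega, h0.2.imp_left fun h => ⟨by omega, h.2⟩⟩ _ k (by omega) h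
        rwa [show k - (o + (ds.map on).sum) = k + 1 - (o + 1 + (ds.map on).sum) by omega,
          show acc + P d + Q q + (o * P d + (ds.map fun d => on d * P d).sum) =
            acc + Q q + ((o + 1) * P d + (ds.map fun d => on d * P d).sum) by ring] at this

theorem HF_mod {U V : ℕ} (h : V ≤ U) : HF U ≡ HF V [MOD 2 ^ (1440 * V)] := by
  rw [HF_eq, HF_eq, ← sum_range_add_sum_Ico _ h]
  refine (Nat.modEq_iff_dvd' (Nat.le_add_right _ _)).2 ?_ |>.symm
  rw [Nat.add_sub_cancel_left]
  exact dvd_sum fun k hk => Dvd.dvd.mul_left (pow_dvd_pow _ (by have := (mem_Ico.1 hk).1; omega)) _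

theorem Rp.both {U X K : ℕ} {f : ℝ → ℝ} (h : Rp 8 U X K fun u _ => f u) :
    Rp 9 U (X + X * be) (2 * K) fun u _ => f u :=
  ((h.lo.add h.hi).mono (two_mul K).ge).congr fun u φ => by ring

theorem chkP_sound {U rem A K : ℕ} (hU : rem ≤ U) (ds : List D) (X : D → ℕ) (act : List (ℕ × St))
    (hact : act.map (fun x => (x.1, x.2.1)) = ds.map fun d => (M d, X d)) {fA : ℝ → ℝ}
    {fB : D → ℝ → ℝ} (hA : Rp 8 U A K fun u _ => fA u)
    (hB : ∀ d ∈ ds, Rp 8 U (X d) K fun u _ => fB d u) (hon : ∀ d ∈ ds, on d ≤ M d) {q : D}
    (hq : q ∈ ds) (hq' : on q < M q) (hR : (ds.map on).sum < rem)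
    (hK : (2 * (ds.map on).sum + 3) * K < 2 ^ 143) (h : chkP (HF U) A act rem = true) {φ u : ℝ}
    (h0 : 0 ≤ φ) (h1 : φ ≤ 1) (hu : u = rem - (ds.map on).sum - φ) :
    fA u + (ds.map fun d => on d * fB d u).sum + φ * fB q u ≤ 0 := by
  obtain ⟨k, rfl⟩ : ∃ k', rem = k' + 1 := ⟨rem - 1, by omega⟩
  obtain ⟨Z, hZ⟩ : ∃ Z, Z = 2 ^ (1440 * (k + 1)) := ⟨_, rfl⟩
  have e : prep Z act = ds.map fun d => (M d, X d % Z + X d % Z * be, X d % Z * be) := by
    have : prep Z act = (act.map fun x => (x.1, x.2.1)).map
        fun y => (y.1, y.2 % Z + y.2 % Z * be, y.2 % Z * be) := by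
      clear hact h
      induction act with
      | nil => rfl
      | cons x act ih =>
        rw [List.map_cons, List.map_cons, ← ih, be, ← Nat.shiftLeft_eq]
        rfl
    rw [this, hact, List.map_map]
    rfl
  have h2 : e0 (prep Z act) ((A + A <<< 144 + HF U) % Z) (1440 * k) = true := hZ ▸ h
  rw [e, Nat.shiftLeft_eq, ← be] at h2
  have h3 := e0_sound M _ _ on ds hon hq hq' _ k (by omega) h2
  have hX : ∀ d ∈ ds, Rp 8 (k + 1) (X d % Z) K fun u _ => fB d u := fun d hd =>
    ((hB d hd).le hU).modEq (hZ ▸ Nat.mod_modEq _ _)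
  have hS : ∀ l : List D, (∀ d ∈ l, d ∈ ds) →
      Rp 9 (k + 1) (l.map fun d => on d * (X d % Z + X d % Z * be)).sum (2 * (l.map on).sum * K)
        fun u _ => (l.map fun d => on d * fB d u).sum := by
    intro l hl
    induction l with
    | nil => exact rp_zero.mono (Nat.zero_le _)
    | cons d l ih =>
      refine ((((hX d (hl d List.mem_cons_self)).both.smul (on d) (Y := on d * _)
        (by rw [Nat.cast_mul])).add (ih fun e he => hl e (List.mem_cons_of_mem _ he))).mono
          (le_of_eq ?_)).congr fun u _ => by simp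
      rw [List.map_cons, List.sum_cons, Int.natAbs_natCast]
      ring
  have h4 := ((((hA.le hU).both.add (hX q hq).hi).add (hS ds fun _ h => h)).mono
    (K' := (2 * (ds.map on).sum + 3) * K) (le_of_eq (by ring))).tst hK (by
      rw [add_right_comm _ _ (HF (k + 1)), add_right_comm _ _ (HF (k + 1))]
      refine (Nat.ModEq.add_right _ (.trans ?_ ((HF_mod hU).add_left _))).add_right _
      rw [hZ]
      exact Nat.mod_modEq _ _)
      (by omega) h3 h0 h1
  rw [Nat.cast_sub (by omega), show (k : ℝ) - ((ds.map on).sum : ℕ) + 1 - φ = u by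
    rw [hu]; push_cast; ring] at h4
  linarith

end Pool.Agent.Lib.MP_7d48f8_nt
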