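import Pool.Agent.Lib.MP_7d48f8_nt.C.Tot

/-! The search over the patterns. -/

noncomputable section

namespace Pool.Agent.Lib.MP_7d48f8_nt

variable (M X : ℕ → ℕ)

/-- The states for the future levels. -/
def Fut : List ℕ → ℕ → List ℕ → List St → Prop
  | _, _, [], fs => fs = []
  | pre, j, m :: ms, fs => ∃ f fs', fs = f :: fs' ∧ m = M j ∧
      (0 < m → fin (pre ++ (m - 1) :: ms) f = X j) ∧ Fut (pre ++ [m]) (j + 1) ms fs'

/-- The pattern passes the selection on every level. -/
def SelP (sel : ℕ → ℕ → Bool) : ℕ → ℕ → List ℕ → Prop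
  | _, _, [] => True
  | j, rem, m :: ms => sel j rem = true ∧ SelP sel (j + 1) (rem - j * m) ms

theorem fut_map {g : St → St} {p q : List ℕ} (h : ∀ l x, fin (q ++ l) (g x) = fin (p ++ l) x)
    (ms : List ℕ) : ∀ pre j fs, Fut M X (p ++ pre) j ms fs → Fut M X (q ++ pre) j ms (mp g fs) := by
  induction ms with
  | nil =>
    rintro pre j fs rfl
    rfl
  | cons m ms ih =>
    rintro pre j fs ⟨f, fs, rfl, h1, h2, h3⟩
    refine ⟨g f, mp g fs, rfl, h1, fun hm => ?_, ?_⟩
    · rw [List.append_assoc, h, ← List.append_assoc, h2 hm]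
    · rw [List.append_assoc] at h3 ⊢
      exact ih _ _ _ h3

theorem mq_map {g : St → St} {p q : List ℕ} (h : ∀ x, fin q (g x) = fin p x)
    (act : List (ℕ × St)) :
    (mq g act).map (fun x => (x.1, fin q x.2)) = act.map fun x => (x.1, fin p x.2) := by
  induction act with
  | nil => rfl
  | cons x act ih =>
    rw [show mq g (x :: act) = (x.1, g x.2) :: mq g act from rfl, List.map_cons, List.map_cons, ih, h]

theorem wtL_ge (ms : List ℕ) : ∀ j, j * ms.sum ≤ wtL j ms := by
  induction ms with
  | nil => exact fun j => le_rfl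
  | cons m ms ih =>
    intro j
    have := ih (j + 1)
    rw [List.sum_cons, wtL]
    nlinarith

theorem lv_zero (ms : List ℕ) (h : ms.sum = 0) : ∀ j ds, lv j ms ds = ds ∧ wtL j ms = 0 := by
  induction ms with
  | nil => exact fun _ _ => ⟨rfl, rfl⟩
  | cons m ms ih =>
    rw [List.sum_cons] at h
    obtain rfl : m = 0 := by omega
    exact fun j ds => ⟨(ih (by omega) _ _).1, by rw [wtL, (ih (by omega) _ []).2]; rfl⟩

theorem go_sound (H lo U XA : ℕ) (sel : ℕ → ℕ → Bool) (fuel : ℕ) :
    (∀ j A act fs rem ms ds, go H lo U sel fuel false j A act fs rem = true → fin ms A = XA →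
      act.map (fun x => (x.1, fin ms x.2)) = ds.map (fun d => (M d, X d)) → Fut M X [] j ms fs →
      wtL j ms + lo < rem → rem ≤ wtL j ms + U → 0 < ms.sum → SelP sel j rem ms →
      ∃ act' : List (ℕ × St), act'.map (fun x => (x.1, x.2.1)) =
        (lv j ms ds).map (fun d => (M d, X d)) ∧ chkP H XA act' (rem - wtL j ms) = true) ∧
    ∀ j A m0 x act fs rem m ms ds, go H lo U sel fuel true j A ((m0, x) :: act) fs rem = true →
      fin (m :: ms) A = XA → m0 + m = M j → fin (m :: ms) x = X j →
      act.map (fun x => (x.1, fin (m :: ms) x.2)) = ds.map (fun d => (M d, X d)) →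
      Fut M X [m] (j + 1) ms fs → wtL j (m :: ms) + lo < rem → rem ≤ wtL j (m :: ms) + U →
      SelP sel (j + 1) (rem - j * m) ms →
      ∃ act' : List (ℕ × St), act'.map (fun x => (x.1, x.2.1)) =
        (lv (j + 1) ms (j :: ds)).map (fun d => (M d, X d)) ∧
        chkP H XA act' (rem - wtL j (m :: ms)) = true := by
  induction fuel with
  | zero => exact ⟨fun _ _ _ _ _ _ _ h => Bool.noConfusion h,
      fun _ _ _ _ _ _ _ _ _ _ h => Bool.noConfusion h⟩
  | succ fuel ih =>
    obtain ⟨i0, i1⟩ := ih
    have hup : ∀ l x, fin ([] ++ l) (up x) = fin ([0] ++ l) x := fun l x => fin_up l x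
    have hcon : ∀ m l x, fin ([m] ++ l) (con x) = fin ([m + 1] ++ l) x := fun m l x => fin_con m l x
    refine ⟨fun j A act fs rem ms ds h hA ha hF h1 h2 h3 hs => ?_,
      fun j A m0 x act fs rem m ms ds h hA hm hx ha hF h1 h2 hs => ?_⟩
    · cases ms with
      | nil => cases h3
      | cons m ms =>
      obtain ⟨f, fs, rfl, f1, f2, f3⟩ := hF
      change @Bool.rec (fun _ => Bool) true (@Bool.rec (fun _ => Bool) false
        (go H lo U sel fuel false (j + 1) (up A) (mq up act) (mp up fs) rem)
        (go H lo U sel fuel true j (con A) ((1, f) :: mq con act) (mp con fs) (rem - j)))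
        (Nat.ble (j + lo + 1) rem && sel j rem) = true at h
      have e1 : Nat.ble (j + lo + 1) rem = true := by
        have := (Nat.le_mul_of_pos_right j h3).trans (wtL_ge (m :: ms) j)
        rw [Nat.ble_eq]
        omega
      rw [e1, hs.1] at h
      cases e2 : go H lo U sel fuel true j (con A) ((1, f) :: mq con act) (mp con fs) (rem - j) with
      | false => simp [e2] at h
      | true =>
      rw [e2] at h
      cases m with
      | zero =>
        simp only [wtL, mul_zero, zero_add, List.sum_cons] at h1 h2 h3 ⊢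
        exact i0 _ _ _ _ _ ms ds h hA ((mq_map (fin_up ms) act).trans ha)
          (fut_map M X hup ms [] _ _ f3) h1 h2 h3 hs.2
      | succ m =>
        have e3 : wtL j ((m + 1) :: ms) = j + wtL j (m :: ms) := by
          simp only [wtL]
          ring
        rw [e3] at h1 h2
        rw [e3, ← Nat.sub_sub]
        exact i1 _ _ _ _ _ _ _ m ms ds e2 ((fin_con ..).trans hA) (by omega) (f2 m.succ_pos)
          ((mq_map (fin_con m ms) act).trans ha) (fut_map M X (hcon m) ms [] _ _ f3) (by omega)
          (by omega) (by rw [Nat.sub_sub, ← mul_one_add, add_comm 1]; exact hs.2)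
    · change @Bool.rec (fun _ => Bool) false (@Bool.rec (fun _ => Bool) true
        (@Bool.rec (fun _ => Bool) false
          (go H lo U sel fuel false (j + 1) (up A) (mq up ((m0, x) :: act)) (mp up fs) rem)
          (go H lo U sel fuel true j (con A) ((m0 + 1, con x) :: mq con act) (mp con fs) (rem - j)))
        (Nat.ble (j + lo + 1) rem))
        (@Bool.rec (fun _ => Bool) true (chkP H A.1 ((m0, x) :: act) rem) (Nat.ble rem U)) =
          true at h
      cases e0 : (@Bool.rec (fun _ => Bool) true (chkP H A.1 ((m0, x) :: act) rem)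
        (Nat.ble rem U) : Bool) with
      | false => simp [e0] at h
      | true =>
      rw [e0] at h
      by_cases h3 : (m :: ms).sum = 0
      · have z : ∀ y : St, fin (m :: ms) y = y.1 := fun y => by
          rw [fin, tot_sum_zero _ h3, add_zero]
        rw [(lv_zero _ h3 j []).2] at h1 h2 ⊢
        rw [List.sum_cons] at h3
        rw [(lv_zero ms (by omega) _ _).1]
        rw [Nat.ble_eq_true_of_le (show rem ≤ U by omega)] at e0
        simp only [z] at hA hx ha
        refine ⟨_, ?_, hA ▸ e0⟩
        rw [List.map_cons, List.map_cons, ha, ← hx, ← hm, show m = 0 by omega, add_zero]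
      have e1 : Nat.ble (j + lo + 1) rem = true := by
        have := (Nat.le_mul_of_pos_right j (Nat.pos_of_ne_zero h3)).trans (wtL_ge (m :: ms) j)
        rw [Nat.ble_eq]
        omega
      rw [e1] at h
      cases e2 : go H lo U sel fuel true j (con A) ((m0 + 1, con x) :: mq con act) (mp con fs)
        (rem - j) with
      | false => simp [e2] at h
      | true =>
      rw [e2] at h
      cases m with
      | zero =>
        simp only [wtL, mul_zero, zero_add, List.sum_cons] at h1 h2 h3 ⊢
        refine i0 _ _ _ _ _ ms (j :: ds) h hA ((mq_map (fin_up ms) _).trans ?_)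
          (fut_map M X hup ms [] _ _ hF) h1 h2 (Nat.pos_of_ne_zero h3) hs
        rw [List.map_cons, List.map_cons, ha, hx, ← hm, add_zero]
      | succ m =>
        have e3 : wtL j ((m + 1) :: ms) = j + wtL j (m :: ms) := by
          simp only [wtL]
          ring
        rw [e3] at h1 h2
        rw [e3, ← Nat.sub_sub]
        exact i1 _ _ _ _ _ _ _ m ms ds e2 ((fin_con ..).trans hA) (by omega)
          ((fin_con ..).trans hx) ((mq_map (fin_con m ms) act).trans ha)
          (fut_map M X (hcon m) ms [] _ _ hF) (by omega) (by omega)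
          (by rw [Nat.sub_sub, ← mul_one_add, add_comm 1]; exact hs)

end Pool.Agent.Lib.MP_7d48f8_nt
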