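import Pool.Agent.Lib.MP_7d48f8_nt.C.Dust
import Pool.Agent.Lib.MP_7d48f8_nt.C.RDefsEq

/-! Lower bounds for the mean values of tries. -/

noncomputable section

namespace Pool.Agent.Lib.MP_7d48f8_nt

open Finset MeasureTheory Filter Topology

/-- Sum over sequences of distinct elements, with a function of the remaining set. -/
def ULc : List (ℝ → ℝ) → (Finset ℕ → ℝ) → Finset ℕ → (ℕ → ℝ) → ℝ
  | [], G, S, _ => G S
  | φ :: Φ, G, S, t => ∑ p ∈ S, φ (t p) * ULc Φ G (S.erase p) t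

theorem low_lin (Φ : List (ℝ → ℝ)) (a b : ℝ) (G H : Finset ℕ → ℝ) (S : Finset ℕ) (t : ℕ → ℝ) :
    ULc Φ (fun S => a * G S + b * H S) S t = a * ULc Φ G S t + b * ULc Φ H S t := by
  induction Φ generalizing S with
  | nil => rfl
  | cons φ Φ ih =>
    simp only [ULc, ih, mul_sum, ← sum_add_distrib]
    exact sum_congr rfl fun p _ => by ring

theorem low_one (Φ : List (ℝ → ℝ)) (S : Finset ℕ) (t : ℕ → ℝ) :
    ULc Φ (fun _ => 1) S t = UL Φ S t := by
  induction Φ generalizing S with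
  | nil => rfl
  | cons φ Φ ih => simp only [ULc, UL, ih]

theorem low_app (Φ : List (ℝ → ℝ)) (φ : ℝ → ℝ) (G : Finset ℕ → ℝ) (S : Finset ℕ) (t : ℕ → ℝ) :
    ULc (Φ ++ [φ]) G S t = ULc Φ (fun S => ∑ p ∈ S, φ (t p) * G (S.erase p)) S t := by
  induction Φ generalizing S with
  | nil => rfl
  | cons ψ Φ ih => simp only [List.cons_append, ULc, ih]

theorem low_div (a b c : ℤ) (k : ℕ) {D : ℝ} (hD : 0 < D) :
    (((a + b) / ((k + 1 : ℕ) : ℤ) + c : ℤ) : ℝ) / D ≤ 1 / (k + 1) * (a / D + b / D) + c / D := by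
  rw [← add_div _ _ D, Int.cast_add, add_div _ (c : ℝ), ← mul_div_assoc, one_div_mul_eq_div]
  gcongr
  rw [le_div_iff₀ (by positivity)]
  exact_mod_cast Int.ediv_mul_le (a + b) (show ((k + 1 : ℕ) : ℤ) ≠ 0 by positivity)

theorem low_adm (n : ℕ) (l : List ℕ) : ∀ (L : List Cell) (A B : ℕ),
    (L.map Cell.s = l.map fun x : ℕ => (x : ℝ) / 44) → adm n l A B = true →
    ∃ (La Lb : List Cell), L.Perm (La ++ Lb) ∧ ∃ ma mb : ℕ, n ≤ ma + mb ∧
      A / 44 + (La.map Cell.s).sum + ma * (2 / 44) ≤ 1 / 2 ∧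
      3 * (A / 44 + (La.map Cell.s).sum + ma * (2 / 44)) +
        4 * (B / 44 + (Lb.map Cell.s).sum + mb * (2 / 44)) ≤ 2 := by
  induction l with
  | nil =>
    intro L A B hl h
    obtain rfl : L = [] := by simpa using hl
    simp only [adm, Bool.and_eq_true, Nat.ble_eq] at h
    have h1 : ((A + 2 * min n ((22 - A) / 2) : ℕ) : ℝ) ≤ (22 : ℕ) := Nat.cast_le.2 (by omega)
    have h2 := (Nat.cast_le (α := ℝ)).2 h.2
    refine ⟨[], [], .refl _, min n ((22 - A) / 2), n - min n ((22 - A) / 2), by omega, ?_⟩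
    generalize n - min n ((22 - A) / 2) = b at h2 ⊢
    generalize min n ((22 - A) / 2) = a at h1 h2 ⊢
    push_cast at h1 h2
    simp only [List.map_nil, List.sum_nil]
    constructor <;> linarith
  | cons x l ih =>
    intro L A B hl h
    obtain ⟨c, L, rfl, hc, hl⟩ := List.map_eq_cons_iff.1 hl
    rw [adm, Bool.or_eq_true] at h
    rcases h with h | h
    · obtain ⟨La, Lb, p, ma, mb, h1, h2, h3⟩ := ih L _ _ hl h
      push_cast at h2 h3
      refine ⟨c :: La, Lb, p.cons c, ma, mb, h1, ?_⟩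
      simp only [List.map_cons, List.sum_cons, hc]
      constructor <;> linarith
    · obtain ⟨La, Lb, p, ma, mb, h1, h2, h3⟩ := ih L _ _ hl h
      push_cast at h3
      refine ⟨La, c :: Lb, (p.cons c).trans List.perm_middle.symm, ma, mb, h1, h2, ?_⟩
      simp only [List.map_cons, List.sum_cons, hc]
      linarith

/-- Generalise to `adm n l A B` (add `A / 44`, `B / 44` to the two sums). -/
theorem adm_sound (L : List Cell) (l : List ℕ)
    (hl : L.map Cell.s = l.map fun x : ℕ => (x : ℝ) / 44) {n : ℕ} (h : adm n l 0 0 = true) :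
    Adm L n := by
  simpa [Adm] using low_adm n l L 0 0 hl h

theorem dom_pv (L : List Cell) (h : ∀ c ∈ L, c.ok ∧ 2 / 44 ≤ c.r) (l : List ℕ)
    (hl : L.map Cell.s = l.map fun x : ℕ => (x : ℝ) / 44) {lo hi : ℕ}
    (h1 : (lo : ℝ) ≤ 2 ^ 60 * (L.map Cell.ms).prod) (h2 : 2 ^ 60 * (L.map Cell.ms).prod ≤ hi)
    {d : List ℕ} (hd : okd2 d l = true) :
    Dom (fun S t => pv d (uu S t) * UL (L.map Cell.ph) S t)
      ((mlo (yv d muN) lo hi : ℝ) / (315 * 2 ^ 60)) := by
  have h3 : d.length ≤ 9 ∧ (d ≠ [] → Adm L (d.length - 1)) := by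
    rcases d with _ | ⟨c, d⟩
    · simp
    · simp only [okd2, List.isEmpty_cons, Bool.false_or, Bool.and_eq_true, Nat.ble_eq] at hd
      exact ⟨hd.1, fun _ => adm_sound L l hl hd.2⟩
  refine (nice_pv L h d h3.1 h3.2).dom ?_ fun _ _ => le_rfl
  rw [div_le_iff₀ (by positivity)]
  linarith [mlo_le (yv d muN) h1 h2]

/-- Induction on the trie.  `ULc Φ` is linear in `G`, `ULc Φ (fun _ => 1) = UL Φ`, and
`ULc (Φ ++ [φ]) G = ULc Φ (fun S => ∑ p ∈ S, φ (t p) * G (S.erase p))`; the new list of cells is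
`L ++ [sc j (j + 1)]` (`sc_ind`, `sc_ms`, `lgLo_le`, `le_lgHi`; the product of the masses is nonnegative
by `h1`); `Int.ediv_mul_le` for the division. -/
theorem dom_EVo (T : Tt (List ℕ)) : ∀ (j k : ℕ) (L : List Cell) (l : List ℕ) (lo hi : ℕ), 2 ≤ j →
    (∀ c ∈ L, c.ok ∧ 2 / 44 ≤ c.r) → (L.map Cell.s = l.map fun x : ℕ => (x : ℝ) / 44) →
    (lo : ℝ) ≤ 2 ^ 60 * (L.map Cell.ms).prod → 2 ^ 60 * (L.map Cell.ms).prod ≤ hi →
    okT T j l = true →
    Dom (fun S t => ULc (L.map Cell.ph) (EVo (uu S t) t T j k) S t)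
      ((msT T j k lo hi : ℝ) / (315 * 2 ^ 60)) := by
  induction T with
  | nil =>
    intro j k L l lo hi _ _ _ _ _ _
    refine nice_zero.dom (by simp [msT]) fun S t => ?_
    simpa [EVo] using (low_lin (L.map Cell.ph) 0 0 (fun _ => 0) (fun _ => 0) S t).ge
  | nd d s r ihs ihr =>
    intro j k L l lo hi hj hL hl h1 h2 hT
    simp only [okT, Bool.and_eq_true, Nat.ble_eq] at hT
    obtain ⟨j21, a1, a2, a3⟩ := hT
    have j2 : (2 : ℝ) ≤ j := by exact_mod_cast hj
    have j3 : (j : ℝ) ≤ 21 := by exact_mod_cast j21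
    have b1 : ∀ c ∈ L ++ [sc j (j + 1)], c.ok ∧ 2 / 44 ≤ c.r := by
      simp only [List.mem_append, List.mem_singleton]
      rintro c (hc | rfl)
      · exact hL c hc
      · exact ⟨sc_ok (by linarith) (by linarith) (by linarith), show 2 / 44 ≤ (j : ℝ) / 44 by linarith⟩
    have b2 : (L ++ [sc j (j + 1)]).map Cell.s = (l ++ [j + 1]).map fun x : ℕ => (x : ℝ) / 44 := by
      simp [hl, sc]
    have b3 : ((L ++ [sc j (j + 1)]).map Cell.ms).prod =
        (L.map Cell.ms).prod * Real.log (((j + 1 : ℕ) : ℝ) / j) := by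
      simp [sc_ms (show (0 : ℝ) < j by linarith) (lt_add_one _)]
    have c1 := lgLo_le (show 0 < j by omega) (lt_add_one j)
    have c2 := le_lgHi (show 0 < j by omega) (lt_add_one j)
    have c3 := (Nat.cast_nonneg _).trans c1
    have c4 := (Nat.cast_nonneg _).trans h1
    have b4 : ((lo * lgLo j (j + 1) / 2 ^ 60 : ℕ) : ℝ) ≤
        2 ^ 60 * ((L ++ [sc j (j + 1)]).map Cell.ms).prod := by
      refine Nat.cast_div_le.trans ?_
      push_cast
      rw [b3, div_le_iff₀ (by positivity)]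
      linarith [mul_le_mul h1 c1 (Nat.cast_nonneg _) c4]
    have b5 : 2 ^ 60 * ((L ++ [sc j (j + 1)]).map Cell.ms).prod ≤
        ((hi * lgHi j (j + 1) / 2 ^ 60 + 1 : ℕ) : ℝ) := by
      have c5 : ((hi * lgHi j (j + 1) : ℕ) : ℝ) ≤
          ((2 ^ 60 * (hi * lgHi j (j + 1) / 2 ^ 60 + 1) : ℕ) : ℝ) :=
        Nat.cast_le.2 (Nat.lt_mul_div_succ _ (by positivity)).le
      rw [Nat.cast_mul, Nat.cast_mul, Nat.cast_pow, Nat.cast_ofNat] at c5
      rw [b3]
      linarith [mul_le_mul h2 c2 c3 (Nat.cast_nonneg _)]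
    refine ((((dom_pv _ b1 _ b2 b4 b5 a1).add (ihs j (k + 1) _ _ _ _ hj b1 b2 b4 b5 a2)).smul
      (show (0 : ℝ) ≤ 1 / (k + 1) by positivity)).add
      (ihr (j + 1) 0 L l lo hi (by omega) hL hl h1 h2 a3)).mono ?_ fun S t => le_of_eq ?_
    · exact low_div _ _ _ _ (by positivity)
    · rw [← low_one, ← one_mul (ULc _ (EVo _ _ s _ _) _ _), ← low_lin, List.map_append,
        List.map_singleton, low_app, sc_ind (by omega), ← one_mul (ULc _ (EVo _ _ r _ _) _ _),
        ← low_lin]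
      congr 1
      funext S'
      simp only [EVo, mul_one, one_mul, one_div_mul_eq_div]

/-- `L = []`, or `L = [sm k k (k + 1)]` with mass `1 - k * log ((k + 1) / k) ≥ 0` (the truncated
subtractions: `2 ^ 60 - k * lgHi` is `0` or exact, and `(a : ℝ) - b ≤ (a - b : ℕ)`). -/
theorem dom_CF (x : Tm) (h : okM x = true) : Dom (CF x) ((msM x : ℝ) / (315 * 2 ^ 60)) := by
  rw [okM] at h
  rw [msM]
  split_ifs at h ⊢ with hk
  · rw [Bool.and_eq_true] at h
    refine ((dom_pv [] (by simp) [] rfl (lo := 2 ^ 60) (hi := 2 ^ 60) (by norm_num) (by norm_num) h.1).add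
      (dom_EVo x.t 2 0 [] [] (2 ^ 60) (2 ^ 60) le_rfl (by simp) rfl (by norm_num) (by norm_num) h.2)).mono
      (by rw [Int.cast_add, add_div]) fun S t => ?_
    simp [CF, hk, UL, ULc]
  · simp only [Bool.and_eq_true, Nat.ble_eq] at h
    obtain ⟨⟨⟨k1, k2⟩, a1⟩, a2⟩ := h
    have j2 : (2 : ℝ) ≤ x.k := by exact_mod_cast k1
    have j3 : (x.k : ℝ) ≤ 21 := by exact_mod_cast k2
    have j0 : (0 : ℝ) < x.k := by linarith
    have b1 : ∀ c ∈ [sm x.k x.k (x.k + 1)], c.ok ∧ 2 / 44 ≤ c.r := by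
      simp only [List.mem_singleton]
      rintro c rfl
      exact ⟨sm_ok _ j0 (by linarith) (by linarith), show 2 / 44 ≤ (x.k : ℝ) / 44 by linarith⟩
    have b2 : [sm x.k x.k (x.k + 1)].map Cell.s = [x.k + 1].map fun x : ℕ => (x : ℝ) / 44 := by
      simp [sm]
    have b3 : ([sm x.k x.k (x.k + 1)].map Cell.ms).prod =
        1 - x.k * Real.log (((x.k + 1 : ℕ) : ℝ) / x.k) := by
      simp [sm_ms _ j0 (lt_add_one _)]
    have c1 := mul_le_mul_of_nonneg_left (lgLo_le (show 0 < x.k by omega) (lt_add_one _)) j0.le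
    have c2 := mul_le_mul_of_nonneg_left (le_lgHi (show 0 < x.k by omega) (lt_add_one _)) j0.le
    have c3 : x.k * Real.log (((x.k + 1 : ℕ) : ℝ) / x.k) ≤ 1 := by
      refine (mul_le_mul_of_nonneg_left (Real.log_le_sub_one_of_pos (by positivity)) j0.le).trans_eq ?_
      push_cast
      field_simp
      ring
    have b4 : ((2 ^ 60 - x.k * lgHi x.k (x.k + 1) : ℕ) : ℝ) ≤
        2 ^ 60 * ([sm x.k x.k (x.k + 1)].map Cell.ms).prod := by
      rw [b3]
      rcases le_total (2 ^ 60) (x.k * lgHi x.k (x.k + 1)) with e | e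
      · rw [Nat.sub_eq_zero_of_le e, Nat.cast_zero]
        linarith
      · rw [Nat.cast_sub e, Nat.cast_mul, Nat.cast_pow, Nat.cast_ofNat]
        linarith
    have b5 : 2 ^ 60 * ([sm x.k x.k (x.k + 1)].map Cell.ms).prod ≤
        ((2 ^ 60 - x.k * lgLo x.k (x.k + 1) : ℕ) : ℝ) := by
      have c5 : ((2 ^ 60 : ℕ) : ℝ) ≤
          ((2 ^ 60 - x.k * lgLo x.k (x.k + 1) + x.k * lgLo x.k (x.k + 1) : ℕ) : ℝ) :=
        Nat.cast_le.2 le_tsub_add
      rw [Nat.cast_add, Nat.cast_mul, Nat.cast_pow, Nat.cast_ofNat] at c5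
      rw [b3]
      generalize 2 ^ 60 - x.k * lgLo x.k (x.k + 1) = z at c5 ⊢
      linarith
    refine ((dom_pv _ b1 _ b2 b4 b5 a1).add (dom_EVo x.t 2 0 _ _ _ _ le_rfl b1 b2 b4 b5 a2)).mono
      (by rw [Int.cast_add, add_div]) fun S t => le_of_eq ?_
    simp only [CF, if_neg hk, List.map_singleton, sm_del (Nat.pos_of_ne_zero hk), UL, ULc, mul_sum,
      ← sum_add_distrib]
    exact sum_congr rfl fun p _ => by ring

theorem dom_CL (L : List Tm) (h : L.all okM = true) :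
    Dom (CL L) (((L.map msM).sum : ℤ) / (315 * 2 ^ 60)) := by
  refine (dom_list L CF _ fun x hx => dom_CF x (List.all_eq_true.1 h x hx)).mono (le_of_eq ?_)
    fun _ _ => le_rfl
  clear h
  induction L with
  | nil => simp
  | cons x L ih => simp only [List.map_cons, List.sum_cons, Int.cast_add, add_div, ih]

end Pool.Agent.Lib.MP_7d48f8_nt
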