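import Pool.Agent.Lib.MP_7d48f8_nt.C.Defs
import Pool.Agent.Lib.MP_7d48f8_nt.C.DefsEq

/-! Packed polynomials. -/

noncomputable section

namespace Pool.Agent.Lib.MP_7d48f8_nt

open Finset

variable {n U X Y K K' : ℕ} {F G : ℝ → ℝ → ℝ}

theorem rp_zero : Rp n U 0 0 fun _ _ => 0 :=
  ⟨fun _ _ => 0, by simp, by simp, by simp⟩

theorem Rp.mono (h : Rp n U X K F) (hK : K ≤ K') : Rp n U X K' F := by
  obtain ⟨c, h1, h2, h3⟩ := h
  exact ⟨c, h1, fun k i => (h2 k i).trans (by exact_mod_cast hK), h3⟩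

theorem Rp.congr (h : Rp n U X K F) (e : ∀ u φ, F u φ = G u φ) : Rp n U X K G := by
  rwa [show G = F from funext fun u => funext fun φ => (e u φ).symm]

theorem Rp.add (h : Rp n U X K F) (h' : Rp n U Y K' G) :
    Rp n U (X + Y) (K + K') fun u φ => F u φ + G u φ := by
  obtain ⟨c, h1, h2, h3⟩ := h
  obtain ⟨d, k1, k2, k3⟩ := h'
  refine ⟨fun k i => c k i + d k i, ?_, fun k i => ?_, fun k hk φ => ?_⟩
  · simpa only [add_mul, sum_add_distrib, Nat.cast_add] using h1.add k1
  · push_cast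
    exact (abs_add_le _ _).trans (add_le_add (h2 k i) (k2 k i))
  · simp only [Int.cast_add, add_mul, sum_add_distrib, h3 k hk, k3 k hk]
    ring

theorem Rp.modEq (h : Rp n U X K F) (e : Y ≡ X [MOD 2 ^ (1440 * U)]) : Rp n U Y K F := by
  obtain ⟨c, h1, h2⟩ := h
  refine ⟨c, Int.ModEq.trans ?_ h1, h2⟩
  exact_mod_cast Int.natCast_modEq_iff.2 e

theorem Rp.le {V : ℕ} (h : Rp n U X K F) (hV : V ≤ U) : Rp n V X K F := by
  obtain ⟨c, h1, h2, h3⟩ := h
  refine ⟨c, (h1.of_dvd (pow_dvd_pow _ (by omega))).trans ?_, h2, fun k hk => h3 k (by omega)⟩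
  rw [← sum_range_add_sum_Ico _ hV]
  refine (Int.modEq_iff_dvd.2 ?_).symm
  rw [add_sub_cancel_left]
  exact dvd_sum fun k hk => Dvd.dvd.mul_left (pow_dvd_pow _ (by have := (mem_Ico.1 hk).1; omega)) _

theorem Rp.lo (h : Rp n U X K F) : Rp (n + 1) U X K fun u φ => (1 - φ) * F u φ := by
  obtain ⟨c, h1, h2, h3⟩ := h
  refine ⟨fun k i => if i ≤ n then c k i else 0, ?_, fun k i => ?_, fun k hk φ => ?_⟩
  · convert h1 using 3 with k
    dsimp only
    rw [sum_range_succ _ (n + 1), if_neg (by omega), zero_mul, add_zero]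
    exact sum_congr rfl fun i hi => by rw [if_pos (Nat.lt_succ_iff.1 (mem_range.1 hi))]
  · dsimp only
    split_ifs
    · exact h2 k i
    · simp
  · dsimp only
    rw [sum_range_succ _ (n + 1), if_neg (by omega), ← mul_neg, ← h3 k hk, mul_sum]
    simp only [Int.cast_zero, zero_mul, add_zero]
    refine sum_congr rfl fun i hi => ?_
    have := Nat.lt_succ_iff.1 (mem_range.1 hi)
    rw [if_pos this, show n + 1 - i = n - i + 1 by omega, pow_succ]
    ring

theorem Rp.hi (h : Rp n U X K F) : Rp (n + 1) U (X * be) K fun u φ => φ * F u φ := by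
  obtain ⟨c, h1, h2, h3⟩ := h
  refine ⟨fun k i => Nat.casesOn i 0 (c k), ?_, fun k i => ?_, fun k hk φ => ?_⟩
  · push_cast
    convert h1.mul_right (be : ℤ) using 1
    rw [sum_mul]
    refine sum_congr rfl fun k _ => ?_
    rw [sum_range_succ' _ (n + 1), mul_right_comm, sum_mul _ _ (be : ℤ)]
    simp only [Nat.rec_zero, zero_mul, add_zero, pow_succ, mul_assoc]
  · cases i with
    | zero => simp
    | succ i => exact h2 k i
  · rw [sum_range_succ' _ (n + 1), ← mul_neg, ← h3 k hk, mul_sum]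
    simp only [Nat.rec_zero, Int.cast_zero, zero_mul, add_zero, Nat.add_sub_add_right, pow_succ]
    exact sum_congr rfl fun i _ => by ring

theorem Rp.smul (h : Rp n U X K F) (z : ℤ) (e : (Y : ℤ) ≡ z * X [ZMOD 2 ^ (1440 * U)]) :
    Rp n U Y (z.natAbs * K) fun u φ => z * F u φ := by
  obtain ⟨c, h1, h2, h3⟩ := h
  refine ⟨fun k i => z * c k i, e.trans ?_, fun k i => ?_, fun k hk φ => ?_⟩
  · simpa only [mul_sum, mul_assoc, sum_mul] using h1.mul_left z
  · push_cast
    rw [abs_mul]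
    exact mul_le_mul_of_nonneg_left (h2 k i) (abs_nonneg _)
  · simp only [Int.cast_mul, mul_assoc, ← mul_sum, h3 k hk, mul_neg]

theorem dig_ex {b : ℕ} (D : ℕ → ℕ) (hD : ∀ i, D i < b) {m k : ℕ} (hk : k < m) {Y : ℕ}
    (h : Y ≡ ∑ i ∈ range m, D i * b ^ i [MOD b ^ m]) : Y / b ^ k % b = D k := by
  have hb : 0 < b := (Nat.zero_le _).trans_lt (hD 0)
  induction k generalizing Y D m with
  | zero =>
    obtain ⟨m, rfl⟩ := Nat.exists_eq_add_of_lt hk
    have h1 := h.of_dvd (dvd_pow_self b (by omega))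
    rw [sum_range_succ'] at h1
    simp only [pow_succ, ← mul_assoc, ← sum_mul, pow_zero, mul_one] at h1
    rw [pow_zero, Nat.div_one, h1, Nat.mul_add_mod_of_lt (hD 0)]
  | succ k ih =>
    obtain ⟨m, rfl⟩ : ∃ m', m = m' + 1 := ⟨m - 1, by omega⟩
    rw [pow_succ', ← Nat.div_div_eq_div_mul]
    refine ih (fun i => D (i + 1)) (fun i => hD _) (by omega : k < m) ?_
    rw [sum_range_succ'] at h
    simp only [pow_succ, ← mul_assoc, ← sum_mul, pow_zero, mul_one] at h
    unfold Nat.ModEq at h ⊢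
    rw [← Nat.mod_mul_left_div_self, h, Nat.mod_mul_left_div_self, add_comm,
      Nat.add_mul_div_right _ _ hb, Nat.div_eq_of_lt (hD 0), zero_add]

theorem dig_lt {b : ℕ} (D : ℕ → ℕ) (hD : ∀ i, D i < b) (m : ℕ) :
    ∑ i ∈ range m, D i * b ^ i < b ^ m := by
  induction m with
  | zero => simp
  | succ m ih =>
    rw [sum_range_succ, pow_succ]
    nlinarith [Nat.mul_le_mul_right (b ^ m) (Nat.succ_le_of_lt (hD m))]

theorem HF_eq (U : ℕ) :
    HF U = ∑ k ∈ range U, (∑ i ∈ range 10, 2 ^ 143 * be ^ i) * 2 ^ (1440 * k) := by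
  have h : ∀ U, 2 ^ (1440 * U) = (∑ k ∈ range U, (∑ i ∈ range 10, be ^ i) * 2 ^ (1440 * k)) *
      (2 ^ 144 - 1) + 1 := fun U => by
    induction U with
    | zero => simp
    | succ U ih =>
      have e : (∑ i ∈ range 10, be ^ i) * (2 ^ 144 - 1) + 1 = 2 ^ 1440 := by decide +kernel
      rw [sum_range_succ, add_mul, add_right_comm, ← ih, mul_add, mul_one, pow_add, ← e]
      ring
  rw [HF, h, Nat.add_sub_cancel, Nat.mul_div_cancel _ (by norm_num), mul_sum]
  simp only [← mul_sum, mul_assoc]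

theorem tst_dig {Z i : ℕ} (hi : i < 10) (h : Nat.land Z HH = HH) : 2 ^ 143 ≤ Z / be ^ i % be := by
  have h1 : HH.testBit (144 * i + 143) = true := by
    revert i
    decide +kernel
  have h2 : (Z &&& HH).testBit (144 * i + 143) = true := by
    rw [show Z &&& HH = HH from h]
    exact h1
  rw [Nat.testBit_and, Bool.and_eq_true] at h2
  refine Nat.ge_two_pow_of_testBit ?_
  rw [be, Nat.testBit_mod_two_pow, ← pow_mul, Nat.testBit_div_two_pow, add_comm, h2.1]
  simp

theorem Rp.tst (h : Rp 9 U X K F) (hK : K < 2 ^ 143) (e : Y ≡ X + HF U [MOD 2 ^ (1440 * U)])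
    {k : ℕ} (hk : k < U) (ht : tst Y (1440 * k) = true) {φ : ℝ} (h0 : 0 ≤ φ) (h1 : φ ≤ 1) :
    F (k + 1 - φ) φ ≤ 0 := by
  obtain ⟨c, k1, k2, k3⟩ := h
  have hK' : (K : ℤ) < 2 ^ 143 := by exact_mod_cast hK
  obtain ⟨D, hD⟩ : ∃ D : ℕ → ℕ → ℕ, ∀ k i, (D k i : ℤ) = c k i + 2 ^ 143 :=
    ⟨fun k i => (c k i + 2 ^ 143).toNat, fun k i =>
      Int.toNat_of_nonneg (by linarith [(abs_le.1 (k2 k i)).1])⟩
  have hb : ∀ k i, D k i < be := fun k i => by
    have := (abs_le.1 (k2 k i)).2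
    zify
    rw [hD, be]
    push_cast
    linarith
  have e1 : be ^ 10 = 2 ^ 1440 := by decide +kernel
  have e2 : Y ≡ ∑ k ∈ range U, (∑ i ∈ range 10, D k i * be ^ i) * (be ^ 10) ^ k
      [MOD (be ^ 10) ^ U] := by
    rw [e1, ← pow_mul]
    refine e.trans (Int.natCast_modEq_iff.1 ?_)
    rw [HF_eq]
    simp only [← pow_mul]
    push_cast
    simp only [hD, add_mul, sum_add_distrib]
    exact k1.add (by norm_num)
  have e3 := dig_ex _ (fun k => dig_lt (D k) (hb k) 10) hk e2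
  have e4 : ∀ i < 10, 0 ≤ c k i := fun i hi => by
    have a1 := tst_dig hi (Nat.eq_of_beq_eq_true ht)
    rw [dig_ex (D k) (hb k) hi (m := 10)] at a1
    · have : (2 : ℤ) ^ 143 ≤ D k i := by exact_mod_cast a1
      linarith [hD k i]
    · rw [← e3, e1, ← pow_mul]
      rw [show Y.shiftRight (1440 * k) = Y / 2 ^ (1440 * k) from Nat.shiftRight_eq_div_pow Y _]
      exact (Nat.mod_modEq _ _).symm
  rw [← neg_nonneg, ← k3 k hk]
  refine sum_nonneg fun i hi => mul_nonneg ?_ (mul_nonneg (pow_nonneg h0 _) (pow_nonneg ?_ _))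
  · exact_mod_cast e4 i (mem_range.1 hi)
  · linarith

theorem pr_mul (a b d : ℕ) (c : ℕ → ℤ) (hc : ∀ i, d < i → c i = 0) {R : Type} [CommRing R]
    (x y : R) : ∑ i ∈ range (d + 1 + 1), ((a * c i + b * Nat.casesOn i 0 c : ℤ) : R) *
      (x ^ i * y ^ (d + 1 - i)) =
      (a * y + b * x) * ∑ i ∈ range (d + 1), (c i : R) * (x ^ i * y ^ (d - i)) := by
  simp only [Int.cast_add, add_mul, sum_add_distrib]
  rw [sum_range_succ _ (d + 1), sum_range_succ' _ (d + 1), hc _ (Nat.lt_succ_self d), mul_sum,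
    mul_sum]
  simp only [Nat.rec_zero, mul_zero, Int.cast_zero, zero_mul, add_zero, Int.cast_mul,
    Int.cast_natCast, Nat.add_sub_add_right]
  congr 1
  · refine sum_congr rfl fun i hi => ?_
    rw [show d + 1 - i = d - i + 1 by have := mem_range.1 hi; omega]
    ring
  · exact sum_congr rfl fun i _ => by ring

theorem pr_pow (k m n : ℕ) (hk : k < 44) : ∃ c : ℕ → ℤ, (∀ i, m + n < i → c i = 0) ∧
    (∀ i, |c i| ≤ 88 ^ m * 2 ^ n) ∧ ∀ (R : Type) [CommRing R] (x y : R),
      ∑ i ∈ range (m + n + 1), (c i : R) * (x ^ i * y ^ (m + n - i)) =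
        ((k + 1 : ℕ) * y + k * x) ^ m * (y + x) ^ n := by
  have step : ∀ (a b d : ℕ) (c : ℕ → ℤ) (B : ℤ), (∀ i, d < i → c i = 0) → (∀ i, |c i| ≤ B) →
      (∀ i, d + 1 < i → a * c i + b * Nat.casesOn i 0 c = 0) ∧
      ∀ i, |a * c i + b * Nat.casesOn i 0 c| ≤ (a + b) * B := by
    intro a b d c B h1 h2
    refine ⟨fun i hi => ?_, fun i => ?_⟩
    · obtain ⟨i, rfl⟩ : ∃ i', i = i' + 1 := ⟨i - 1, by omega⟩
      simp [h1 i (by omega), h1 (i + 1) (by omega)]
    · have h3 : |(Nat.casesOn i 0 c : ℤ)| ≤ B := by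
        cases i with
        | zero => simpa using (abs_nonneg _).trans (h2 0)
        | succ i => exact h2 i
      refine (abs_add_le _ _).trans ?_
      rw [abs_mul, abs_mul, Nat.abs_cast, Nat.abs_cast, add_mul]
      gcongr
      exact h2 i
  induction m with
  | zero =>
    induction n with
    | zero => exact ⟨fun i => if i = 0 then 1 else 0, fun i hi => if_neg (by omega),
        fun i => by dsimp only; split_ifs <;> simp, by simp⟩
    | succ n ih =>
      obtain ⟨c, h1, h2, h3⟩ := ih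
      refine ⟨_, (step 1 1 _ c _ h1 h2).1, fun i => ((step 1 1 _ c _ h1 h2).2 i).trans_eq ?_,
        fun R _ x y => (pr_mul 1 1 _ c h1 x y).trans ?_⟩
      · push_cast
        ring
      · rw [h3]
        push_cast
        ring
  | succ m ih =>
    obtain ⟨c, h1, h2, h3⟩ := ih
    rw [Nat.add_right_comm m 1 n]
    refine ⟨_, (step (k + 1) k _ c _ h1 h2).1,
      fun i => ((step (k + 1) k _ c _ h1 h2).2 i).trans ?_,
      fun R _ x y => (pr_mul (k + 1) k _ c h1 x y).trans ?_⟩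
    · rw [pow_succ', mul_assoc]
      gcongr
      push_cast
      omega
    · rw [h3]
      ring

theorem rp_cst {m : ℕ} (hm : m ≤ 8) (hU : U ≤ 44) :
    Rp 8 U (cst U m) (88 ^ m * 2 ^ (8 - m)) fun u _ => - u ^ m := by
  have h : ∀ k, ∃ c : ℕ → ℤ, (∀ i, |c i| ≤ 88 ^ m * 2 ^ (8 - m)) ∧ (k < 44 →
      ∀ (R : Type) [CommRing R] (x y : R), ∑ i ∈ range (8 + 1), (c i : R) * (x ^ i * y ^ (8 - i)) =
        ((k + 1 : ℕ) * y + k * x) ^ m * (y + x) ^ (8 - m)) := fun k => by
    by_cases hk : k < 44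
    · obtain ⟨c, -, h2, h3⟩ := pr_pow k m (8 - m) hk
      rw [Nat.add_sub_cancel' hm] at h3
      exact ⟨c, h2, fun _ => h3⟩
    · exact ⟨fun _ => 0, fun _ => by simp, fun h => absurd h hk⟩
  choose c h1 h2 using h
  refine ⟨c, ?_, fun k i => by exact_mod_cast h1 k i, fun k hk φ => ?_⟩
  · have e : ∀ V ≤ 44, (cst V m : ℤ) =
        ∑ k ∈ range V, (∑ i ∈ range (8 + 1), c k i * (be : ℤ) ^ i) * 2 ^ (1440 * k) := by
      intro V hV
      induction V with
      | zero => rfl
      | succ V ih =>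
        have := h2 V (by omega) ℤ be 1
        simp only [one_pow, mul_one, Int.cast_id] at this
        rw [sum_range_succ, ← ih (by omega), this]
        exact_mod_cast rfl
    rw [e U hU]
  · rw [h2 k (by omega) ℝ φ (1 - φ)]
    push_cast
    rw [neg_neg, sub_add_cancel, one_pow, mul_one]
    congr 1
    ring

theorem rp_pk_aux (hU : U ≤ 44) (hU' : 0 < U) (d : List ℕ) : ∀ m, m + d.length ≤ 9 →
    Rp 8 U (pk ((csts U).drop m) d) (nrm d m) fun u _ => u ^ m * pv d u := by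
  induction d with
  | nil => exact fun m _ => rp_zero.congr (by simp [pv])
  | cons c d ih =>
    intro m hm
    rw [List.length_cons] at hm
    have e : (csts U).drop m = (cst U m, (MM U - B0) * cst U m % MM U) :: (csts U).drop (m + 1) := by
      rw [List.drop_eq_getElem_cons (by simp [csts]; omega)]
      simp [csts]
    have hB : B0 ≤ MM U := Nat.pow_le_pow_right two_pos (by omega)
    have h1 := (rp_cst (m := m) (by omega) hU).smul (c - B0)
      (Y := c * cst U m + (MM U - B0) * cst U m % MM U) (by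
        rw [sub_mul, sub_eq_add_neg]
        push_cast [hB]
        refine (Int.ModEq.refl _).add ?_
        rw [MM]
        push_cast
        refine (Int.mod_modEq _ _).trans (Int.modEq_iff_dvd.2 ⟨-(cst U m), by ring⟩))
    rw [e]
    refine ((h1.add (ih (m + 1) (by omega))).mono (le_of_eq ?_)).congr fun u _ => ?_
    · rw [nrm]
      congr 2
      omega
    · rw [pv]
      push_cast
      ring

theorem rp_pk (hU : U ≤ 44) (hU' : 0 < U) {d : List ℕ} (h : okd d = true) :
    Rp 8 U (pk (csts U) d) K0 fun u _ => pv d u := by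
  rw [okd, Bool.and_eq_true, Nat.ble_eq, Nat.ble_eq] at h
  exact ((rp_pk_aux hU hU' d 0 (by omega)).mono h.2).congr (by simp)

end Pool.Agent.Lib.MP_7d48f8_nt
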