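import Pool.Agent.Lib.MP_7d48f8_nt.C.Defs
import Pool.Agent.Lib.MP_7d48f8_nt.P.Base
import Pool.Agent.Lib.MP_7d48f8_nt.V.Fin2

/-! The functions of patterns described by a certificate, and lower bounds for their mean values. -/

noncomputable section

namespace Pool.Agent.Lib.MP_7d48f8_nt

open Finset MeasureTheory Filter Topology

/-- The indicator of the cell `[j / 44, (j + 1) / 44)`. -/
def ind (j : ℕ) (t : ℝ) : ℝ := if (j : ℝ) ≤ 44 * t ∧ 44 * t < j + 1 then 1 else 0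

/-- The offset inside the cell `j`. -/
def del (j : ℕ) (t : ℝ) : ℝ := ind j t * (44 * t - j)

/-- Powers of the size of a small element. -/
def dw (k : ℕ) (t : ℝ) : ℝ := if 0 ≤ t ∧ 44 * t < 2 then (44 * t) ^ (k + 1) else 0

/-- The total size of the small elements. -/
def uu (S : Finset ℕ) (t : ℕ → ℝ) : ℝ := ∑ p ∈ S, dw 0 (t p)

/-- The function of a trie at level `j`, after `k` elements of that level have been chosen. -/
def EVo (u : ℝ) (t : ℕ → ℝ) : Tt (List ℕ) → ℕ → ℕ → Finset ℕ → ℝ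
  | .nil, _, _, _ => 0
  | .nd d s r, j, k, S =>
    (∑ p ∈ S, ind j (t p) * (pv d u + EVo u t s j (k + 1) (S.erase p))) / (k + 1) +
      EVo u t r (j + 1) 0 S

/-- The function of a term. -/
def CF (x : Tm) (S : Finset ℕ) (t : ℕ → ℝ) : ℝ :=
  if x.k = 0 then pv x.d (uu S t) + EVo (uu S t) t x.t 2 0 S
  else ∑ p ∈ S, del x.k (t p) * (pv x.d (uu S t) + EVo (uu S t) t x.t 2 0 (S.erase p))

/-- The function of a list of terms. -/
def CL (L : List Tm) (S : Finset ℕ) (t : ℕ → ℝ) : ℝ := (L.map fun x => CF x S t).sum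

/-- The cell `[x / 44, y / 44)` with weight `1`. -/
def sc (x y : ℝ) : Cell := ⟨x / 44, y / 44, fun t => 1 / t⟩

/-- The cell `[x / 44, y / 44)` with weight `44 t - j`. -/
def sm (j x y : ℝ) : Cell := ⟨x / 44, y / 44, fun t => (44 * t - j) / t⟩

/-- The small cell with weight `(44 t) ^ (k + 1)`. -/
def dc (k : ℕ) : Cell := ⟨0, 2 / 44, fun t => 44 ^ (k + 1) * t ^ k⟩

/-- The cells of `L` and `n` small cells satisfy the conditions of the bilinear estimate. -/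
def Adm (L : List Cell) (n : ℕ) : Prop :=
  ∃ (La Lb : List Cell) (ma mb : ℕ), L.Perm (La ++ Lb) ∧ n ≤ ma + mb ∧
    (La.map Cell.s).sum + ma * (2 / 44) ≤ 1 / 2 ∧
    3 * ((La.map Cell.s).sum + ma * (2 / 44)) + 4 * ((Lb.map Cell.s).sum + mb * (2 / 44)) ≤ 2

def Nice (W : Finset ℕ → (ℕ → ℝ) → ℝ) (m : ℝ) : Prop := Good W m ∧ Inv W

/-- `V` dominates a function with mean value at least `k`. -/
def Dom (V : Finset ℕ → (ℕ → ℝ) → ℝ) (k : ℝ) : Prop :=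
  ∃ W m, Nice W m ∧ k ≤ m ∧ ∀ S t, W S t ≤ V S t

def bumps : List ℕ → List (List ℕ)
  | [] => []
  | k :: E => ((k + 1) :: E) :: (bumps E).map (k :: ·)

/-- The mean value of `uu ^ m` times the sum with the weights `dw k`, `k ∈ E`. -/
def FF : ℕ → List ℕ → ℚ
  | 0, E => (E.map fun k : ℕ => (2 : ℚ) ^ (k + 1) / (k + 1)).prod
  | m + 1, E => FF m (0 :: E) + ((bumps E).map (FF m)).sum

/-- `315` times the moments of `uu`. -/
def muN : List ℕ := [315, 630, 1890, 7140, 31920, 163296, 935312, 5905696, 40632576]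

/-- `315` times the mean value of `pv d uu`. -/
def yv : List ℕ → List ℕ → ℤ
  | c :: d, m :: mu => ((B0 : ℤ) - c) * m + yv d mu
  | _, _ => 0

def lgS (a b : ℕ) : ℕ → ℕ
  | 0 => 0
  | n + 1 => lgS a b n + 2 ^ 61 * a ^ (2 * n + 1) / ((2 * n + 1) * b ^ (2 * n + 1))

/-- A lower bound for `2 ^ 60 * log (y / x)`. -/
def lgLo (x y : ℕ) : ℕ := lgS (y - x) (y + x) 12

/-- An upper bound for `2 ^ 60 * log (y / x)`. -/
def lgHi (x y : ℕ) : ℕ :=
  lgLo x y + 13 + 2 ^ 61 * (y - x) ^ 25 / ((y + x) ^ 23 * ((y + x) ^ 2 - (y - x) ^ 2))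

def mlo (y : ℤ) (lo hi : ℕ) : ℤ := if 0 ≤ y then y * lo else y * hi

def adm (n : ℕ) : List ℕ → ℕ → ℕ → Bool
  | [], A, B => Nat.ble A 22 && Nat.ble (3 * (A + 2 * min n ((22 - A) / 2)) +
      4 * (B + 2 * (n - min n ((22 - A) / 2)))) 88
  | x :: l, A, B => adm n l (A + x) B || adm n l A (B + x)

def okd2 (d l : List ℕ) : Bool := d.isEmpty || Nat.ble d.length 9 && adm (d.length - 1) l 0 0

def okT : Tt (List ℕ) → ℕ → List ℕ → Bool
  | .nil, _, _ => true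
  | .nd d s r, j, l => Nat.ble j 21 && (okd2 d (l ++ [j + 1]) && (okT s j (l ++ [j + 1]) &&
      okT r (j + 1) l))

/-- A lower bound for `315 * 2 ^ 60` times the mean value. -/
def msT : Tt (List ℕ) → ℕ → ℕ → ℕ → ℕ → ℤ
  | .nil, _, _, _, _ => 0
  | .nd d s r, j, k, lo, hi =>
    (mlo (yv d muN) (lo * lgLo j (j + 1) / 2 ^ 60) (hi * lgHi j (j + 1) / 2 ^ 60 + 1) +
      msT s j (k + 1) (lo * lgLo j (j + 1) / 2 ^ 60) (hi * lgHi j (j + 1) / 2 ^ 60 + 1)) /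
        ((k + 1 : ℕ) : ℤ) + msT r (j + 1) 0 lo hi

def okM (x : Tm) : Bool :=
  if x.k = 0 then okd2 x.d [] && okT x.t 2 []
  else Nat.ble 2 x.k && Nat.ble x.k 21 && okd2 x.d [x.k + 1] && okT x.t 2 [x.k + 1]

def msM (x : Tm) : ℤ :=
  if x.k = 0 then mlo (yv x.d muN) (2 ^ 60) (2 ^ 60) + msT x.t 2 0 (2 ^ 60) (2 ^ 60)
  else mlo (yv x.d muN) (2 ^ 60 - x.k * lgHi x.k (x.k + 1)) (2 ^ 60 - x.k * lgLo x.k (x.k + 1)) +
    msT x.t 2 0 (2 ^ 60 - x.k * lgHi x.k (x.k + 1)) (2 ^ 60 - x.k * lgLo x.k (x.k + 1))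

def skip : ℕ → Tt (List ℕ) → Tt (List ℕ)
  | 0, t => t
  | n + 1, t => .nd [] .nil (skip n t)

/-- An affine function on a pair of cells that is only partly admissible. -/
structure Bd where
  j1 : ℕ
  j2 : ℕ
  c0 : ℕ
  c1 : ℕ
  c2 : ℕ

namespace Bd

def y0 (b : Bd) : ℤ := B0 - b.c0

def y1 (b : Bd) : ℤ := B0 - b.c1

def y2 (b : Bd) : ℤ := B0 - b.c2

def t0 (b : Bd) : Tm :=
  ⟨0, [], skip (b.j1 - 2) (.nd [] (skip (b.j2 - b.j1) (.nd [b.c0] .nil .nil)) .nil)⟩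

def terms (b : Bd) : List Tm :=
  ⟨b.j1, [], skip (b.j2 - 2) (.nd [b.c1] .nil .nil)⟩ ::
    ⟨b.j2, [], skip (b.j1 - 2) (.nd [b.c2] .nil .nil)⟩ :: b.t0 ::
      if b.j1 = b.j2 then [b.t0] else []

/-- The admissible part, in units of `1 / 32`, of the cell `j1` over the strip `i` of the cell `j2`. -/
def cut (b : Bd) (i : ℕ) : ℕ := min 32 ((2816 - 3 * (32 * b.j2 + i + 1) - 128 * b.j1) / 4)

def ok (b : Bd) : Bool :=
  Nat.ble 2 b.j1 && Nat.ble b.j1 b.j2 && Nat.ble b.j2 21 && (List.range 32).all fun i =>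
    decide (b.cut i = 32 ∨
      0 ≤ 32 * b.y0 + min (b.y1 * b.cut i) (b.y1 * 32) + min (b.y2 * i) (b.y2 * (i + 1)))

def ms1 (b : Bd) (i : ℕ) (lo1 hi1 lo2 hi2 : ℕ) : ℤ :=
  32 * mlo (b.y0 - b.j1 * b.y1 - b.j2 * b.y2) (lo1 * lo2) (hi1 * hi2) +
    2 ^ 60 * mlo b.y2 lo1 hi1 + 2 ^ 60 * b.cut i * mlo b.y1 lo2 hi2

/-- A lower bound for `32 * 2 ^ 120` times the mean value. -/
def ms (b : Bd) : ℤ :=
  ((List.range 32).map fun i => if b.cut i = 0 then 0 else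
    b.ms1 i (lgLo (32 * b.j1) (32 * b.j1 + b.cut i)) (lgHi (32 * b.j1) (32 * b.j1 + b.cut i))
      (lgLo (32 * b.j2 + i) (32 * b.j2 + i + 1)) (lgHi (32 * b.j2 + i) (32 * b.j2 + i + 1))).sum

end Bd

end Pool.Agent.Lib.MP_7d48f8_nt
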