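import Pool.Agent.Lib.MP_7d48f8_nt.C.Cnt
import Pool.Agent.Lib.MP_7d48f8_nt.C.Go
import Pool.Agent.Lib.MP_7d48f8_nt.C.Edge

/-! Soundness of the checker. -/

noncomputable section

namespace Pool.Agent.Lib.MP_7d48f8_nt

open Finset Tt

def msd (M : ℕ → ℕ) (d : ℕ) : List ℕ :=
  (List.range' 2 31).map fun e => if e = d then M e - 1 else M e

theorem fut_range (M : ℕ → ℕ) (g : ℕ → St) (n : ℕ) : ∀ i, i + n = 31 →
    Fut M (fun d => fin (msd M d) (g d)) ((List.range' 2 i).map M) (2 + i)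
      ((List.range' (2 + i) n).map M) ((List.range' (2 + i) n).map g) := by
  induction n with
  | zero => exact fun _ _ => rfl
  | succ n ih =>
    intro i hi
    refine ⟨_, _, rfl, rfl, fun _ => ?_, ?_⟩
    · dsimp only
      rw [msd, ← hi, ← List.range'_append_1, List.map_append, List.range'_succ, List.map_cons,
        if_pos rfl]
      refine congrArg (fin · _) (congrArg₂ (· ++ ·) ?_ (congrArg (_ :: ·) ?_)) <;>
        refine List.map_congr_left fun e he => (if_neg ?_).symm <;>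
        have := List.mem_range'_1.1 he <;> omega
    · have := ih (i + 1) (by omega)
      rwa [List.range'_concat, one_mul, List.map_append] at this

theorem lv_sum {α : Type} [AddCommMonoid α] (M : ℕ → ℕ) (f : ℕ → α) (hf : ∀ d, M d = 0 → f d = 0)
    (n : ℕ) : ∀ j acc, ((lv j ((List.range' j n).map M) acc).map f).sum =
      (acc.map f).sum + ∑ d ∈ Ico j (j + n), f d := by
  induction n with
  | zero => exact fun j acc => by simp [lv]
  | succ n ih =>
    intro j acc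
    rw [List.range'_succ, List.map_cons, lv, ih, sum_eq_sum_Ico_succ_bot (a := j) (by omega),
      show j + (n + 1) = j + 1 + n by ring, ← add_assoc]
    split_ifs with h
    · rw [hf j h, add_zero]
    · rw [List.map_cons, List.sum_cons, add_comm (f j)]

theorem lv_mem (M : ℕ → ℕ) (d n : ℕ) : ∀ j acc, d ∈ acc ∨ (j ≤ d ∧ d < j + n ∧ M d ≠ 0) →
    d ∈ lv j ((List.range' j n).map M) acc := by
  induction n with
  | zero => exact fun j acc h => h.resolve_right (by omega)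
  | succ n ih =>
    intro j acc h
    refine ih _ _ ?_
    rcases h with h | ⟨h1, h2, h3⟩
    · left
      split_ifs
      exacts [h, List.mem_cons_of_mem _ h]
    · rcases h1.eq_or_lt with rfl | h1
      · exact Or.inl (by rw [if_neg h3]; exact List.mem_cons_self)
      · exact Or.inr ⟨h1, by omega, h3⟩

theorem wtL_range (M : ℕ → ℕ) (n : ℕ) : ∀ j,
    wtL j ((List.range' j n).map M) = ∑ d ∈ Ico j (j + n), M d * d := by
  induction n with
  | zero => exact fun j => by simp [wtL]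
  | succ n ih =>
    intro j
    rw [List.range'_succ, List.map_cons, wtL, ih, sum_eq_sum_Ico_succ_bot (a := j) (by omega),
      show j + (n + 1) = j + 1 + n by ring, mul_comm]

theorem selP_big (K k : ℕ) (ms : List ℕ) : ∀ j rem, 5 < j →
    SelP (fun j rem => !Nat.beq j 5 || Nat.beq (rem % K) k) j rem ms := by
  induction ms with
  | nil => exact fun _ _ _ => trivial
  | cons m ms ih =>
    refine fun j rem h => ⟨?_, ih _ _ (by omega)⟩
    dsimp only
    rw [show Nat.beq j 5 = false from Bool.eq_false_iff.2 fun e => h.ne' (Nat.eq_of_beq_eq_true e)]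
    rfl

theorem msd_sum (M : ℕ → ℕ) (d : ℕ) : (msd M d).sum ≤ ((List.range' 2 31).map M).sum :=
  List.sum_le_sum fun e _ => by split_ifs <;> omega

/-- The edges of one pattern. -/
theorem edge_le {L : List Tm} (hL : okL L = true) (M on : ℕ → ℕ) {lo U K q : ℕ} (hU : U ≤ 44)
    (hK : 0 < K) (hc : ∀ k < K, chk L lo U K k = true) {rem : ℕ}
    (hr : rem + ∑ d ∈ Ico 2 33, M d * d = 44) (h1 : lo < rem) (h2 : rem ≤ U)
    (hon : ∀ d, on d ≤ M d) (hq : q ∈ Ico 2 33) (hq' : on q < M q)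
    (hR : ∑ d ∈ Ico 2 33, on d < rem) {φ u : ℝ} (h0 : 0 ≤ φ) (h3 : φ ≤ 1)
    (hu : u = rem - (∑ d ∈ Ico 2 33, on d : ℕ) - φ) :
    gv L 0 ((List.range' 2 31).map M) u + ∑ d ∈ Ico 2 33, on d * gv L d (msd M d) u +
      φ * gv L q (msd M q) u ≤ 0 := by
  obtain ⟨ms, hms⟩ : ∃ ms, ms = (List.range' 2 31).map M := ⟨_, rfl⟩
  have w1 : wtL 2 ms + rem = 44 := by rw [hms, wtL_range, add_comm, hr]
  have w2 := wtL_ge ms 2
  have q1 := mem_Ico.1 hq
  have w3 : 0 < ms.sum := by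
    have : M q ≤ ms.sum := List.single_le_sum (fun _ _ => Nat.zero_le _) _
      (hms ▸ List.mem_map_of_mem (List.mem_range'_1.2 q1))
    omega
  obtain ⟨act, a1, a2⟩ := (go_sound M (fun d => fin (msd M d) (gat (csts U) L d)) _ _ _ _ _ _).1
    _ _ _ _ _ ms [] (hc ((44 - 2 * M 2 - 3 * M 3 - 4 * M 4) % K) (Nat.mod_lt _ hK)) rfl rfl
    (hms ▸ fut_range M _ 31 0 rfl) (by omega) (by omega) w3
    (hms ▸ ⟨rfl, rfl, rfl, Nat.beq_refl _, selP_big _ _ _ _ _ (by omega)⟩)
  rw [okL, Bool.and_eq_true, Nat.ble_eq] at hL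
  have rp : ∀ l : List ℕ, l.sum ≤ ms.sum → ∀ k, Rp 8 U (fin l (gat (csts U) L k))
      (128 * (K0 * 2 ^ 21)) fun u _ => gv L k l u := fun l hl k =>
    (rp_gat hU (by omega) l k L hL.2).mono (Nat.mul_le_mul hL.1 (Nat.mul_le_mul_left _
      (Nat.pow_le_pow_right (by omega) (by omega))))
  have s1 : ((lv 2 ms []).map on).sum = ∑ d ∈ Ico 2 33, on d := by
    rw [hms, lv_sum M on fun d h => by have := hon d; omega]
    exact zero_add _
  rw [show 44 - wtL 2 ms = rem by omega] at a2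
  have := chkP_sound M on h2 (lv 2 ms []) _ act a1 (rp ms le_rfl 0)
    (fun d _ => rp _ (hms ▸ msd_sum M d) d) (fun d _ => hon d)
    (hms ▸ lv_mem M q 31 2 [] (Or.inr ⟨q1.1, q1.2, by omega⟩)) hq' (s1 ▸ hR)
    (by
      rw [s1]
      exact (Nat.mul_le_mul_right _ (show _ ≤ 89 by omega)).trans_lt (by decide +kernel))
    a2 h0 h3 (s1 ▸ hu)
  rw [hms, lv_sum M _ fun d h => by rw [show on d = 0 by have := hon d; omega]; simp] at this
  simpa only [List.map_nil, List.sum_nil, zero_add] using this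

/-- The cell of an element. -/
def lev (t : ℕ → ℝ) (p : ℕ) : ℕ := ⌊44 * t p⌋₊

theorem ind_lev {t : ℕ → ℝ} {p : ℕ} (h : 0 < t p) (d : ℕ) :
    ind d (t p) = if lev t p = d then 1 else 0 := by
  simp only [ind, lev, Nat.floor_eq_iff (show 0 ≤ 44 * t p by linarith)]

theorem sum_ind {t : ℕ → ℝ} {S : Finset ℕ} (h : ∀ p ∈ S, 0 < t p) (d : ℕ) :
    ∑ p ∈ S, ind d (t p) = #{p ∈ S | lev t p = d} := by
  rw [sum_congr rfl fun p hp => ind_lev (h p hp) d, sum_boole]

theorem CL_eq {L : List Tm} (h1 : ∀ x ∈ L, x.k ≠ 1) {S : Finset ℕ} {t : ℕ → ℝ}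
    (h : ∀ p ∈ S, 0 < t p ∧ t p < 3 / 4) {M : ℕ → ℕ} (hM : M = fun d => #{p ∈ S | lev t p = d}) :
    CL L S t = gv L 0 ((List.range' 2 31).map M) (uu S t) + ∑ p ∈ S with 2 ≤ lev t p,
      (44 * t p - lev t p) * gv L (lev t p) (msd M (lev t p)) (uu S t) := by
  induction L with
  | nil => simp [CL, gv]
  | cons x L ih =>
    replace ih := ih fun y hy => h1 y (List.mem_cons_of_mem _ hy)
    have hx := h1 x List.mem_cons_self
    simp only [CL, gv, List.map_cons, List.sum_cons, mul_add, sum_add_distrib] at ih ⊢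
    rw [ih, add_add_add_comm, CF]
    congr 1
    split_ifs with h0
    · rw [EVo_tot _ _ _ (cn_range t S M 31 2 (fun i _ => hM ▸ sum_ind (fun p hp => (h p hp).1) i)
        fun p hp => by push_cast; linarith [(h p hp).2]), sum_eq_zero, add_zero]
      intro p hp
      rw [if_neg (by have := (mem_filter.1 hp).2; omega), mul_zero]
    · rw [zero_add, sum_filter]
      refine sum_congr rfl fun p hp => ?_
      rw [del, ind_lev (h p hp).1]
      by_cases e : lev t p = x.k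
      · rw [if_pos e, if_pos (by omega), if_pos e.symm, one_mul, e, msd, EVo_tot _ _ _ (cn_range t _ _
          31 2 (fun i _ => ?_) fun q hq => by push_cast; linarith [(h q (mem_of_mem_erase hq)).2])]
        rw [sum_ind fun q hq => (h q (mem_of_mem_erase hq)).1, filter_erase, hM]
        split_ifs with e'
        · rw [card_erase_of_mem (mem_filter.2 ⟨hp, show lev t p = i from e.trans e'.symm⟩)]
        · rw [erase_eq_of_notMem fun h => e' ((mem_filter.1 h).2.symm.trans e)]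
      · rw [if_neg e, if_neg (Ne.symm e)]
        simp

theorem cl_le {L : List Tm} (hL : okL L = true) (h1 : ∀ x ∈ L, x.k ≠ 1) (h0 : gv L 0 [] 44 ≤ 0)
    (hc : ∀ r, 0 < r → r ≤ 42 → ∃ lo U K, lo < r ∧ r ≤ U ∧ U ≤ 44 ∧ 0 < K ∧
      ∀ k < K, chk L lo U K k = true) (S : Finset ℕ) (t : ℕ → ℝ)
    (h : ∀ p ∈ S, 0 < t p ∧ t p < 3 / 4) (hs : ∑ p ∈ S, t p = 1) (hd : ∃ p ∈ S, t p < 1 / 22) :
    CL L S t ≤ 0 := by
  obtain ⟨M, hM⟩ : ∃ M : ℕ → ℕ, M = fun d => #{p ∈ S | lev t p = d} := ⟨_, rfl⟩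
  obtain ⟨B, hB⟩ : ∃ B, B = {p ∈ S | 2 ≤ lev t p} := ⟨_, rfl⟩
  have b1 : ∀ p ∈ B, p ∈ S ∧ lev t p ∈ Ico 2 33 := fun p hp => by
    obtain ⟨a1, a2⟩ := mem_filter.1 (hB ▸ hp)
    exact ⟨a1, mem_Ico.2 ⟨a2, (Nat.floor_lt (by linarith [(h p a1).1])).2 (by
      push_cast; linarith [(h p a1).2])⟩⟩
  have b2 : ∀ T ⊆ B, ∀ g : ℕ → ℝ,
      ∑ p ∈ T, g (lev t p) = ∑ d ∈ Ico 2 33, (#{p ∈ T | lev t p = d} : ℝ) * g d := fun T hT g => by
    rw [← sum_fiberwise_of_maps_to' fun p hp => (b1 p (hT hp)).2]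
    simp only [sum_const, nsmul_eq_mul]
  have b3 : ∀ d ∈ Ico 2 33, #{p ∈ B | lev t p = d} = M d := fun d hd => by
    rw [hB, hM, filter_filter]
    exact congrArg card (filter_congr fun p _ => and_iff_right_of_imp fun e => e ▸ (mem_Ico.1 hd).1)
  have b4 : ∀ p ∈ S, dw 0 (t p) = if 2 ≤ lev t p then 0 else 44 * t p := fun p hp => by
    have := (h p hp).1
    simp only [dw, lev, Nat.le_floor_iff (show 0 ≤ 44 * t p by linarith), this.le, true_and,
      zero_add, pow_one, Nat.cast_ofNat, ← not_le, ite_not]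
  have u0 : 0 < uu S t := by
    obtain ⟨p, hp, hp'⟩ := hd
    refine sum_pos' (fun p hp => ?_) ⟨p, hp, ?_⟩
    · rw [b4 p hp]
      split_ifs <;> linarith [(h p hp).1]
    · rw [dw, if_pos ⟨(h p hp).1.le, by linarith⟩]
      exact pow_pos (by linarith [(h p hp).1]) _
  have u1 : uu S t + ∑ p ∈ B, 44 * t p = 44 := by
    rw [hB, sum_filter, uu, ← sum_add_distrib, sum_congr rfl (g := fun p => 44 * t p), ← mul_sum, hs,
      mul_one]
    intro p hp
    rw [b4 p hp]
    split_ifs <;> simp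
  rw [CL_eq h1 h hM, ← hB]
  rcases B.eq_empty_or_nonempty with rfl | hne
  · rw [sum_empty, add_zero] at u1 ⊢
    have : ((List.range' 2 31).map M).sum = 0 := List.sum_eq_zero fun m hm => by
      obtain ⟨d, hd, rfl⟩ := List.mem_map.1 hm
      exact (b3 d (mem_Ico.2 (List.mem_range'_1.1 hd))).symm
    simpa only [gv, u1, tot_sum_zero _ this, tot] using h0
  have d1 : ∀ p ∈ B, 0 ≤ 44 * t p - lev t p ∧ 44 * t p - lev t p < 1 := fun p hp =>
    ⟨sub_nonneg.2 (Nat.floor_le (by linarith [(h p (b1 p hp).1).1])), Nat.self_sub_floor_lt_one _⟩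
  obtain ⟨s, hs'⟩ : ∃ s, s = ∑ p ∈ B, (44 * t p - lev t p) := ⟨_, rfl⟩
  have s0 : 0 ≤ s := hs' ▸ sum_nonneg fun p hp => (d1 p hp).1
  have s1 : s < #B := by
    simpa only [← hs', sum_const, nsmul_eq_mul, mul_one] using
      sum_lt_sum_of_nonempty hne fun p hp => (d1 p hp).2
  have s2 : uu S t + s + (∑ d ∈ Ico 2 33, M d * d : ℕ) = 44 := by
    rw [hs', sum_sub_distrib, b2 B Subset.rfl Nat.cast,
      sum_congr (s₁ := Ico 2 33) rfl fun d hd => by rw [b3 d hd]]
    push_cast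
    linarith
  obtain ⟨T, t1, q, q1, q2, t2, t3⟩ := knap B (fun p => gv L (lev t p) (msd M (lev t p)) (uu S t))
    (fun p => 44 * t p - lev t p) (R := ⌊s⌋₊) (φ := s - ⌊s⌋₊)
    (fun p hp => ⟨(d1 p hp).1, (d1 p hp).2.le⟩) (by rw [← hs']; ring) ((Nat.floor_lt s0).2 s1)
  have t4 : ∑ d ∈ Ico 2 33, #{p ∈ T | lev t p = d} = ⌊s⌋₊ := by
    rw [← t2, card_eq_sum_card_fiberwise fun p hp => (b1 p (t1 hp)).2]
  have m0 : ∀ d, {p ∈ T | lev t p = d} ⊆ {p ∈ S | lev t p = d} := fun d =>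
    filter_subset_filter _ fun p hp => (b1 p (t1 hp)).1
  have m1 : #{p ∈ T | lev t p = lev t q} < M (lev t q) := hM ▸ card_lt_card
    ((ssubset_iff_of_subset (m0 _)).2 ⟨q, mem_filter.2 ⟨(b1 q q1).1, rfl⟩,
      fun h => q2 (mem_filter.1 h).1⟩)
  obtain ⟨w, hw⟩ : ∃ w, w = ∑ d ∈ Ico 2 33, M d * d := ⟨_, rfl⟩
  have w1 : M (lev t q) * lev t q ≤ w :=
    hw ▸ single_le_sum (f := fun d => M d * d) (fun _ _ => Nat.zero_le _) (b1 q q1).2
  have w2 := Nat.mul_le_mul (show 1 ≤ M (lev t q) by omega) (mem_Ico.1 (b1 q q1).2).1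
  have w3 : ⌊s⌋₊ + w < 44 := by
    have := Nat.floor_le s0
    rw [← hw] at s2
    exact_mod_cast (show ((⌊s⌋₊ + w : ℕ) : ℝ) < (44 : ℕ) by push_cast; linarith)
  obtain ⟨lo, U, K, c1, c2, c3, c4, c5⟩ := hc (44 - w) (by omega) (by omega)
  have := edge_le hL M (fun d => #{p ∈ T | lev t p = d}) c3 c4 c5 (by omega) c1 c2
    (fun d => hM ▸ card_le_card (m0 d)) (b1 q q1).2 m1 (by omega)
    (sub_nonneg.2 (Nat.floor_le s0)) (Nat.self_sub_floor_lt_one s).le (u := uu S t) (by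
      rw [t4, Nat.cast_sub (by omega), hw]
      push_cast at s2 ⊢
      linarith)
  rw [b2 T t1 fun d => gv L d (msd M d) (uu S t)] at t3
  linarith

end Pool.Agent.Lib.MP_7d48f8_nt
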