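import Pool.Agent.Lib.MP_7d48f8_nt.C.Real
import Pool.Agent.Lib.MP_7d48f8_nt.C.Low
import Pool.Agent.Lib.MP_7d48f8_nt.C.Bnd

/-! From a certificate to the theorem. -/

noncomputable section

namespace Pool.Agent.Lib.MP_7d48f8_nt

open Finset Filter

/-- The weight on the large prime factors. -/
def GG (a b c : ℕ) (t : ℝ) : ℝ :=
  44 * a * (t * tent (2199 / 100) 22 23 (44 * t)) + 44 * b * (t * tent 22 23 24 (44 * t)) +
    44 * c * (t * tent 23 24 25 (44 * t))

def g2 (j a b : ℕ) : List Tm :=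
  [⟨0, [], skip (j - 2) (.nd [B0 + j * a] .nil .nil)⟩, ⟨j, [B0 + (j + 1) * b - j * a], .nil⟩]

def gT (a b c : ℕ) : List Tm := g2 22 a b ++ g2 23 b c ++ g2 24 c 0

theorem CL_append (L L' : List Tm) (S : Finset ℕ) (t : ℕ → ℝ) :
    CL (L ++ L') S t = CL L S t + CL L' S t := by
  simp only [CL, List.map_append, List.sum_append]

theorem CL_g2 {j a b : ℕ} (hj : 2 ≤ j) (ha : j * a ≤ B0) (S : Finset ℕ) (t : ℕ → ℝ) :
    CL (g2 j a b) S t = ∑ p ∈ S, -(ind j (t p) *
      (j * a * (j + 1 - 44 * t p) + (j + 1) * b * (44 * t p - j))) := by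
  simp only [CL, g2, List.map_cons, List.map_nil, List.sum_cons, List.sum_nil, add_zero,
    CF_one _ _ hj, CF_del _ _ hj, ← sum_add_distrib]
  refine sum_congr rfl fun p _ => ?_
  rw [Nat.cast_sub (by omega), del]
  push_cast
  ring

theorem g2_le {j : ℕ} {a b s x y : ℝ} (hb : b ≤ a) (h1 : (j : ℝ) ≤ s) (h2 : s < j + 1)
    (hb0 : 0 ≤ b) (hx : j + 1 - s ≤ x) (hy : s - j ≤ y) :
    j * a * (j + 1 - s) + (j + 1) * b * (s - j) ≤ a * (s * x) + b * (s * y) := by
  have s0 : 0 ≤ s := (Nat.cast_nonneg j).trans h1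
  have e1 := mul_le_mul_of_nonneg_left (mul_le_mul_of_nonneg_left hx s0) (hb0.trans hb)
  have e2 := mul_le_mul_of_nonneg_left (mul_le_mul_of_nonneg_left hy s0) hb0
  have e3 := mul_nonneg (sub_nonneg.2 hb) (mul_nonneg (sub_nonneg.2 h1) (sub_nonneg.2 h2.le))
  linarith

theorem GG_ge {a b c : ℕ} (h1 : c ≤ b) (h2 : b ≤ a) {t : ℝ} (ht : 0 ≤ t) :
    ind 22 t * ((22 : ℕ) * a * ((22 : ℕ) + 1 - 44 * t) + ((22 : ℕ) + 1) * b * (44 * t - (22 : ℕ))) +
    ind 23 t * ((23 : ℕ) * b * ((23 : ℕ) + 1 - 44 * t) + ((23 : ℕ) + 1) * c * (44 * t - (23 : ℕ))) +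
    ind 24 t * ((24 : ℕ) * c * ((24 : ℕ) + 1 - 44 * t) +
      ((24 : ℕ) + 1) * (0 : ℕ) * (44 * t - (24 : ℕ))) ≤ GG a b c t := by
  have n1 := mul_nonneg (Nat.cast_nonneg (α := ℝ) a)
    (mul_nonneg ht (tent_nonneg (2199 / 100) 22 23 (44 * t)))
  have n2 := mul_nonneg (Nat.cast_nonneg (α := ℝ) b) (mul_nonneg ht (tent_nonneg 22 23 24 (44 * t)))
  have n3 := mul_nonneg (Nat.cast_nonneg (α := ℝ) c) (mul_nonneg ht (tent_nonneg 23 24 25 (44 * t)))
  have z : ∀ j : ℕ, 44 * t < j ∨ j + 1 ≤ 44 * t → ind j t = 0 := fun j h =>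
    if_neg fun h' => by rcases h with h | h <;> linarith [h'.1, h'.2]
  rw [GG]
  rcases ind_cases 22 t with ⟨e, p1, p2⟩ | ⟨e, -⟩
  · have := g2_le (Nat.cast_le.2 h2) p1 p2 (Nat.cast_nonneg b)
      (x := tent (2199 / 100) 22 23 (44 * t)) (y := tent 22 23 24 (44 * t))
      ((tent_right (by norm_num) (by norm_num) (by exact_mod_cast p1)).trans' (by norm_num))
      ((tent_left (by norm_num) (by norm_num) (by push_cast at p2; linarith)).trans' (by norm_num))
    rw [e, z 23 (by push_cast at p2 ⊢; left; linarith), z 24 (by push_cast at p2 ⊢; left; linarith)]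
    linarith
  rcases ind_cases 23 t with ⟨e', p1, p2⟩ | ⟨e', -⟩
  · have := g2_le (Nat.cast_le.2 h1) p1 p2 (Nat.cast_nonneg c)
      (x := tent 22 23 24 (44 * t)) (y := tent 23 24 25 (44 * t))
      ((tent_right (by norm_num) (by norm_num) (by exact_mod_cast p1)).trans' (by norm_num))
      ((tent_left (by norm_num) (by norm_num) (by push_cast at p2; linarith)).trans' (by norm_num))
    rw [e, e', z 24 (by push_cast at p2 ⊢; left; linarith)]
    push_cast at this ⊢
    linarith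
  rcases ind_cases 24 t with ⟨e'', p1, p2⟩ | ⟨e'', -⟩
  · have := g2_le (Nat.cast_nonneg (α := ℝ) c) p1 p2 le_rfl
      (x := tent 23 24 25 (44 * t)) (y := 44 * t - (24 : ℕ))
      ((tent_right (by norm_num) (by norm_num) (by exact_mod_cast p1)).trans' (by norm_num)) le_rfl
    rw [e, e', e'']
    push_cast at this ⊢
    linarith
  · rw [e, e', e'']
    linarith

theorem big_GG (a b c : ℕ) : Big (GG a b c) (101 / 200 * a + b + c) := by
  have := big_add (big_add
    (big_smul (c := 44 * a) (by positivity) (big_tent (a := 2199 / 100) (n := 22) (b := 23)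
      (by norm_num) (by norm_num) (by norm_num) (by norm_num)))
    (big_smul (c := 44 * b) (by positivity) (big_tent (a := 22) (n := 23) (b := 24)
      (by norm_num) (by norm_num) (by norm_num) (by norm_num))))
    (big_smul (c := 44 * c) (by positivity) (big_tent (a := 23) (n := 24) (b := 25)
      (by norm_num) (by norm_num) (by norm_num) (by norm_num)))
  rwa [show (44 * a * ((23 - 2199 / 100) / 88) + 44 * b * ((24 - 22) / 88) +
    44 * c * ((25 - 23) / 88) : ℝ) = 101 / 200 * a + b + c by ring] at this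

/-- The value at `44`. -/
def pz : List ℕ → ℤ
  | [] => 0
  | c :: d => B0 - c + 44 * pz d

theorem pz_eq (d : List ℕ) : (pz d : ℝ) = pv d 44 := by
  induction d with
  | nil => exact Int.cast_zero
  | cons c d ih =>
    rw [pz, pv, ← ih]
    push_cast
    rfl

/-- The conditions on a certificate apart from the search. -/
def okAll (L : List Tm) (Bs : List Bd) (a b c : ℕ) : Bool :=
  L.all okM && Bs.all Bd.ok && decide (c ≤ b ∧ b ≤ a ∧ 24 * a ≤ B0) &&
    decide (315 * 32 * 2 ^ 120 * (101 * a + 200 * b + 200 * c : ℤ) <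
      200 * (32 * 2 ^ 60 * (L.map msM).sum + 315 * (Bs.map Bd.ms).sum))

def okTot (L : List Tm) : Bool :=
  okL L && L.all (fun x => decide (x.k ≠ 1)) &&
    decide ((L.map fun x => if x.k = 0 then pz x.d else 0).sum ≤ 0)

theorem top {L : List Tm} {Bs : List Bd} {a b c : ℕ} (h1 : okAll L Bs a b c = true)
    (h2 : okTot (L ++ Bs.flatMap Bd.terms ++ gT a b c) = true)
    (hc : ∀ r, 0 < r → r ≤ 42 → ∃ lo U K, lo < r ∧ r ≤ U ∧ U ≤ 44 ∧ 0 < K ∧
      ∀ k < K, chk (L ++ Bs.flatMap Bd.terms ++ gT a b c) lo U K k = true) :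
    ∀ᶠ x : ℝ in atTop, ∃ n p : ℕ, x < n ∧ (n : ℝ) ≤ x + √x ∧ p.Prime ∧ p ∣ n ∧
      x ^ (3 / 4 : ℝ) < p := by
  simp only [okAll, okTot, Bool.and_eq_true, decide_eq_true_eq, List.all_eq_true (p := fun x : Tm =>
    decide (x.k ≠ 1))] at h1 h2
  obtain ⟨⟨⟨a1, a2⟩, a3, a4, a5⟩, a6⟩ := h1
  obtain ⟨W, m, ⟨w1, w2⟩, w3, w4⟩ := (dom_CL L a1).add (dom_bds Bs a2)
  have e0 : ∀ L : List Tm, gv L 0 [] 44 =
      ((L.map fun x => if x.k = 0 then pz x.d else 0).sum : ℤ) := fun L => by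
    rw [gv, Int.cast_list_sum, List.map_map]
    refine congrArg List.sum (List.map_congr_left fun x _ => ?_)
    simp only [Function.comp, Tt.tot, add_zero, Int.cast_ite, pz_eq, Int.cast_zero]
  refine final2 (η := 1 / 22) w1 w2 (big_GG a b c) (lt_of_lt_of_le ?_ w3) (by norm_num) (by norm_num)
    (by norm_num) (by norm_num) (fun t ht => ?_) (fun t ht => ?_) fun S t s1 s2 s3 => ?_
  · have := (Int.cast_lt (R := ℝ)).2 a6
    push_cast [- Int.cast_list_sum] at this
    rw [div_add_div _ _ (by positivity) (by positivity), lt_div_iff₀ (by positivity)]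
    linarith
  · have := tent_nonneg
    unfold GG
    refine add_nonneg (add_nonneg ?_ ?_) ?_ <;>
      exact mul_nonneg (by positivity) (mul_nonneg ht (this ..))
  · have z : ∀ x n y : ℝ, 2 ≤ x → x < n → tent x n y (44 * t) = 0 := fun x n y e1 e2 =>
      max_eq_left (min_le_of_left_le (div_nonpos_of_nonpos_of_nonneg (by linarith) (by linarith)))
    rw [GG, z _ _ _ (by norm_num) (by norm_num), z _ _ _ (by norm_num) (by norm_num),
      z _ _ _ (by norm_num) (by norm_num)]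
    simp
  · have k1 := cl_le h2.1.1 h2.1.2 (by rw [e0]; exact_mod_cast h2.2) hc S t s1 s2 s3
    have k2 := sum_le_sum fun p hp => GG_ge a3 a4 (s1 p hp).1.le
    simp only [gT, CL_append] at k1
    rw [CL_g2 (by omega) (by omega), CL_g2 (by omega) (by omega), CL_g2 (by omega) (by omega)] at k1
    simp only [sum_add_distrib, sum_neg_distrib] at k1 k2
    linarith [w4 S t]

end Pool.Agent.Lib.MP_7d48f8_nt
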